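import Mathlib
import Pool.Agent.H106DD.SL

set_option autoImplicit false

/-!
# Moments of sums of weakly orthogonal variables
-/

namespace Pool.Agent.Q236.CG

open Finset

variable {Ω V : Type*}

/-- the variable `D (val ω k0)` is orthogonal to all bounded functions of the values at less than `d` other points -/
structure Orth (W : Finset Ω) (val : Ω → ℕ → V) (D : V → ℝ) (S : Finset ℕ) (d : ℕ) (δ : ℝ) : Prop where
  main : ∀ J' ⊆ S, ∀ k0 ∈ S, k0 ∉ J' → J'.card < d → ∀ G : Ω → ℝ, (∀ ω ∈ W, |G ω| ≤ 1) →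
    (∀ ω ω', (∀ k ∈ J', val ω k = val ω' k) → G ω = G ω') → |∑ ω ∈ W, G ω * D (val ω k0)| ≤ δ * W.card

open Classical in
/-- products of `D + 2 Y` -/
lemma prod_upper (W : Finset Ω) (val : Ω → ℕ → V) (D Y : V → ℝ) (S : Finset ℕ) (d : ℕ) (δ β : ℝ) (hδ : 0 ≤ δ)
    (h : Orth W val D S d δ) (hβ : β ≤ 1 / 2) (hD : ∀ ω ∈ W, ∀ k ∈ S, |D (val ω k)| ≤ 1)
    (hY0 : ∀ ω ∈ W, ∀ k ∈ S, 0 ≤ Y (val ω k)) (hY1 : ∀ ω ∈ W, ∀ k ∈ S, Y (val ω k) ≤ β)
    (I : Finset ℕ) (hI : I ⊆ S) (hId : I.card ≤ d) :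
    ∑ ω ∈ W, ∏ k ∈ I, (D (val ω k) + 2 * Y (val ω k)) ≤ ((2 * β) ^ I.card + 2 ^ I.card * δ) * W.card := by
  have hexp : ∀ ω, ∏ k ∈ I, (D (val ω k) + 2 * Y (val ω k)) =
      ∑ Q ∈ I.powerset, (∏ k ∈ Q, D (val ω k)) * ∏ k ∈ I \ Q, (2 * Y (val ω k)) := fun ω => Finset.prod_add _ _ _
  rw [Finset.sum_congr rfl (fun ω _ => hexp ω), Finset.sum_comm]
  have h0 : ∑ ω ∈ W, (∏ k ∈ (∅ : Finset ℕ), D (val ω k)) * ∏ k ∈ I \ ∅, (2 * Y (val ω k)) ≤ (2 * β) ^ I.card * W.card := by
    rw [sdiff_empty]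
    calc ∑ ω ∈ W, (∏ k ∈ (∅ : Finset ℕ), D (val ω k)) * ∏ k ∈ I, (2 * Y (val ω k)) ≤ ∑ _ω ∈ W, (2 * β) ^ I.card := by
          apply Finset.sum_le_sum
          intro ω hω
          rw [prod_empty, one_mul]
          calc ∏ k ∈ I, (2 * Y (val ω k)) ≤ ∏ _k ∈ I, (2 * β) := by
                apply Finset.prod_le_prod
                · intro k hk
                  have := hY0 ω hω k (hI hk)
                  linarith
                · intro k hk
                  have := hY1 ω hω k (hI hk)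
                  linarith
            _ = (2 * β) ^ I.card := Finset.prod_const _
      _ = (2 * β) ^ I.card * W.card := by rw [Finset.sum_const, nsmul_eq_mul, mul_comm]
  have h1 : ∀ Q ∈ I.powerset.erase ∅, ∑ ω ∈ W, (∏ k ∈ Q, D (val ω k)) * ∏ k ∈ I \ Q, (2 * Y (val ω k)) ≤ δ * W.card := by
    intro Q hQ
    rw [mem_erase, mem_powerset] at hQ
    obtain ⟨hQ0, hQI⟩ := hQ
    obtain ⟨k0, hk0⟩ := nonempty_iff_ne_empty.2 hQ0
    have hk0I := hQI hk0
    have h2 := h.main (I.erase k0) ((erase_subset _ _).trans hI) k0 (hI hk0I) (notMem_erase _ _) (by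
      rw [card_erase_of_mem hk0I]
      have := card_pos.2 ⟨k0, hk0I⟩
      omega) (fun ω => (∏ k ∈ Q.erase k0, D (val ω k)) * ∏ k ∈ I \ Q, (2 * Y (val ω k))) (by
      intro ω hω
      rw [abs_mul, Finset.abs_prod, Finset.abs_prod]
      apply mul_le_one₀
      · exact Finset.prod_le_one (fun k _ => abs_nonneg _) (fun k hk => hD ω hω k (hI (hQI (mem_of_mem_erase hk))))
      · exact Finset.prod_nonneg fun k _ => abs_nonneg _
      · apply Finset.prod_le_one (fun k _ => abs_nonneg _)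
        intro k hk
        have hkS := hI (mem_sdiff.1 hk).1
        have := hY0 ω hω k hkS
        have := hY1 ω hω k hkS
        rw [abs_of_nonneg (by linarith)]
        linarith) (by
      intro ω ω' hωω
      have e1 : ∏ k ∈ Q.erase k0, D (val ω k) = ∏ k ∈ Q.erase k0, D (val ω' k) := by
        apply Finset.prod_congr rfl
        intro k hk
        rw [hωω k (mem_erase.2 ⟨(mem_erase.1 hk).1, hQI (mem_of_mem_erase hk)⟩)]
      have e2 : ∏ k ∈ I \ Q, (2 * Y (val ω k)) = ∏ k ∈ I \ Q, (2 * Y (val ω' k)) := by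
        apply Finset.prod_congr rfl
        intro k hk
        rw [mem_sdiff] at hk
        rw [hωω k (mem_erase.2 ⟨fun he => hk.2 (he ▸ hk0), hk.1⟩)]
      simp only [e1, e2])
    refine le_trans (le_of_eq ?_) ((le_abs_self _).trans h2)
    apply Finset.sum_congr rfl
    intro ω _
    rw [← Finset.mul_prod_erase Q _ hk0]
    ring
  rw [← Finset.add_sum_erase _ _ (empty_mem_powerset I)]
  have h3 : ∑ Q ∈ I.powerset.erase ∅, ∑ ω ∈ W, (∏ k ∈ Q, D (val ω k)) * ∏ k ∈ I \ Q, (2 * Y (val ω k)) ≤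
      2 ^ I.card * (δ * W.card) := by
    refine (Finset.sum_le_sum h1).trans ?_
    rw [Finset.sum_const, nsmul_eq_mul]
    apply mul_le_mul_of_nonneg_right _ (by positivity)
    have h4 : (I.powerset.erase ∅).card ≤ 2 ^ I.card := (card_erase_le).trans (le_of_eq (card_powerset I))
    exact_mod_cast h4
  calc _ ≤ (2 * β) ^ I.card * W.card + 2 ^ I.card * (δ * W.card) := add_le_add h0 h3
    _ = _ := by ring

/-- the elementary symmetric sums -/
lemma es_bound (x : ℕ → ℝ) (S : Finset ℕ) (hx : ∀ k ∈ S, 0 ≤ x k) (s : ℕ) :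
    ∑ I ∈ S.powerset.filter (fun I => I.card ≤ s), ∏ k ∈ I, x k ≤ (s + 1) * (1 + ∑ k ∈ S, x k) ^ s := by
  have h0 : 0 ≤ ∑ k ∈ S, x k := Finset.sum_nonneg hx
  have h1 : S.powerset.filter (fun I => I.card ≤ s) = (range (s + 1)).biUnion (fun j => S.powersetCard j) := by
    ext I
    rw [mem_filter, mem_powerset, mem_biUnion]
    constructor
    · rintro ⟨h2, h3⟩
      exact ⟨I.card, mem_range.2 (by omega), mem_powersetCard.2 ⟨h2, rfl⟩⟩
    · rintro ⟨j, hj, h2⟩
      rw [mem_range] at hj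
      rw [mem_powersetCard] at h2
      exact ⟨h2.1, by omega⟩
  rw [h1, Finset.sum_biUnion]
  · calc ∑ j ∈ range (s + 1), ∑ I ∈ S.powersetCard j, ∏ k ∈ I, x k ≤ ∑ _j ∈ range (s + 1), (1 + ∑ k ∈ S, x k) ^ s := by
          apply Finset.sum_le_sum
          intro j hj
          rw [mem_range] at hj
          have h2 := DD106.SSL.slEs_le x S hx j
          have h3 : DD106.SSL.slEs x j S = ∑ I ∈ S.powersetCard j, ∏ k ∈ I, x k := rfl
          rw [h3] at h2
          have h4 : 0 ≤ ∑ I ∈ S.powersetCard j, ∏ k ∈ I, x k :=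
            Finset.sum_nonneg fun I hI => Finset.prod_nonneg fun k hk => hx k ((mem_powersetCard.1 hI).1 hk)
          have h5 : (1 : ℝ) ≤ (j.factorial : ℝ) := by exact_mod_cast Nat.one_le_iff_ne_zero.2 (Nat.factorial_ne_zero j)
          calc ∑ I ∈ S.powersetCard j, ∏ k ∈ I, x k ≤ (j.factorial : ℝ) * ∑ I ∈ S.powersetCard j, ∏ k ∈ I, x k :=
                le_mul_of_one_le_left h4 h5
            _ ≤ (∑ k ∈ S, x k) ^ j := h2
            _ ≤ (1 + ∑ k ∈ S, x k) ^ j := pow_le_pow_left₀ h0 (by linarith) j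
            _ ≤ (1 + ∑ k ∈ S, x k) ^ s := pow_le_pow_right₀ (by linarith) (by omega)
    _ = (s + 1) * (1 + ∑ k ∈ S, x k) ^ s := by
        rw [Finset.sum_const, card_range, nsmul_eq_mul]
        push_cast
        ring
  · intro i _ j _ hij
    rw [Function.onFun, disjoint_left]
    intro I hI hJ
    rw [mem_powersetCard] at hI hJ
    exact hij (hI.2.symm.trans hJ.2)

open Classical in
/-- **The moments** -/
theorem moment (W : Finset Ω) (val : Ω → ℕ → V) (D Y : V → ℝ) (S : Finset ℕ) (s : ℕ) (hs : 1 ≤ s) (δ β : ℝ) (hδ : 0 ≤ δ)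
    (h : Orth W val D S (2 * s) δ) (hβ0 : 0 ≤ β) (hβ : β ≤ 1 / 2) (hD : ∀ ω ∈ W, ∀ k ∈ S, |D (val ω k)| ≤ 1)
    (hY0 : ∀ ω ∈ W, ∀ k ∈ S, 0 ≤ Y (val ω k)) (hY1 : ∀ ω ∈ W, ∀ k ∈ S, Y (val ω k) ≤ β)
    (hDY : ∀ ω ∈ W, ∀ k ∈ S, |D (val ω k)| ≤ D (val ω k) + 2 * Y (val ω k)) (w : ℕ → ℝ) (hw : ∀ k ∈ S, |w k| ≤ 1) :
    ∑ ω ∈ W, (∑ k ∈ S, w k * D (val ω k)) ^ (2 * s) ≤
      ((s : ℝ) ^ (2 * s) * ((s + 1) * (1 + 2 * β * ∑ k ∈ S, |w k|) ^ s) +
        (1 + (s : ℝ) ^ (2 * s) * 2 ^ s * (s + 1)) * (1 + S.card) ^ (2 * s) * δ) * W.card := by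
  obtain ⟨K, hK⟩ : ∃ K, K = Fintype.piFinset (fun _ : Fin (2 * s) => S) := ⟨_, rfl⟩
  have hKS : ∀ κ ∈ K, ∀ j, κ j ∈ S := by
    intro κ hκ j
    rw [hK, Fintype.mem_piFinset] at hκ
    exact hκ j
  have hexp : ∀ ω, (∑ k ∈ S, w k * D (val ω k)) ^ (2 * s) = ∑ κ ∈ K, ∏ j, (w (κ j) * D (val ω (κ j))) := by
    intro ω
    rw [hK, Finset.sum_pow']
  rw [Finset.sum_congr rfl (fun ω _ => hexp ω), Finset.sum_comm]
  -- the two kinds of functions
  obtain ⟨K2, hK2⟩ : ∃ K2, K2 = K.filter (fun κ => ∀ j, ∃ j', j' ≠ j ∧ κ j' = κ j) := ⟨_, rfl⟩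
  have hW0 : (0 : ℝ) ≤ W.card := Nat.cast_nonneg _
  have hterm1 : ∀ κ ∈ K, κ ∉ K2 → ∑ ω ∈ W, ∏ j, (w (κ j) * D (val ω (κ j))) ≤ δ * W.card := by
    intro κ hκ hκ2
    rw [hK2, mem_filter] at hκ2
    push Not at hκ2
    obtain ⟨j0, hj0⟩ := hκ2 hκ
    have h1 := h.main ((univ.erase j0).image κ) (by
      intro k hk
      rw [mem_image] at hk
      obtain ⟨j, _, rfl⟩ := hk
      exact hKS κ hκ j) (κ j0) (hKS κ hκ j0) (by
      intro hk
      rw [mem_image] at hk
      obtain ⟨j, hj, hjk⟩ := hk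
      exact hj0 j (mem_erase.1 hj).1 hjk) (by
      refine lt_of_le_of_lt card_image_le ?_
      rw [card_erase_of_mem (mem_univ _), card_univ, Fintype.card_fin]
      omega) (fun ω => (∏ j, w (κ j)) * ∏ j ∈ univ.erase j0, D (val ω (κ j))) (by
      intro ω hω
      rw [abs_mul, Finset.abs_prod, Finset.abs_prod]
      apply mul_le_one₀
      · exact Finset.prod_le_one (fun j _ => abs_nonneg _) (fun j _ => hw _ (hKS κ hκ j))
      · exact Finset.prod_nonneg fun j _ => abs_nonneg _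
      · exact Finset.prod_le_one (fun j _ => abs_nonneg _) (fun j _ => hD ω hω _ (hKS κ hκ j))) (by
      intro ω ω' hωω
      have e1 : ∏ j ∈ univ.erase j0, D (val ω (κ j)) = ∏ j ∈ univ.erase j0, D (val ω' (κ j)) := by
        apply Finset.prod_congr rfl
        intro j hj
        rw [hωω (κ j) (mem_image_of_mem κ hj)]
      simp only [e1])
    refine le_trans (le_of_eq ?_) ((le_abs_self _).trans h1)
    apply Finset.sum_congr rfl
    intro ω _
    rw [Finset.prod_mul_distrib, ← Finset.mul_prod_erase univ (fun j => D (val ω (κ j))) (mem_univ j0)]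
    ring
  have hterm2 : ∀ κ ∈ K2, ∑ ω ∈ W, ∏ j, (w (κ j) * D (val ω (κ j))) ≤
      (∏ k ∈ univ.image κ, |w k|) * (((2 * β) ^ (univ.image κ).card + 2 ^ (univ.image κ).card * δ) * W.card) := by
    intro κ hκ
    have hκK : κ ∈ K := by
      rw [hK2, mem_filter] at hκ
      exact hκ.1
    have hIS : univ.image κ ⊆ S := by
      intro k hk
      rw [mem_image] at hk
      obtain ⟨j, _, rfl⟩ := hk
      exact hKS κ hκK j
    have hprod : ∀ x : ℕ → ℝ, (∀ k ∈ S, 0 ≤ x k ∧ x k ≤ 1) → ∏ j, x (κ j) ≤ ∏ k ∈ univ.image κ, x k := by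
      intro x hx
      rw [Finset.prod_comp x κ]
      apply Finset.prod_le_prod
      · intro k hk
        exact pow_nonneg (hx k (hIS hk)).1 _
      · intro k hk
        have h1 : 1 ≤ (univ.filter (fun a => κ a = k)).card := by
          rw [mem_image] at hk
          obtain ⟨j, hj, hjk⟩ := hk
          exact card_pos.2 ⟨j, mem_filter.2 ⟨mem_univ _, hjk⟩⟩
        calc x k ^ (univ.filter (fun a => κ a = k)).card ≤ x k ^ 1 :=
              pow_le_pow_of_le_one (hx k (hIS hk)).1 (hx k (hIS hk)).2 h1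
          _ = x k := pow_one _
    have h1 := prod_upper W val D Y S (2 * s) δ β hδ h hβ hD hY0 hY1 (univ.image κ) hIS (by
      refine card_image_le.trans ?_
      rw [card_univ, Fintype.card_fin])
    have hwp : 0 ≤ ∏ k ∈ univ.image κ, |w k| := Finset.prod_nonneg fun k _ => abs_nonneg _
    refine le_trans ?_ (mul_le_mul_of_nonneg_left h1 hwp)
    rw [Finset.mul_sum]
    apply Finset.sum_le_sum
    intro ω hω
    refine (le_abs_self _).trans ?_
    rw [Finset.abs_prod]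
    simp only [abs_mul]
    rw [Finset.prod_mul_distrib]
    apply mul_le_mul
    · exact hprod (fun k => |w k|) (fun k hk => ⟨abs_nonneg _, hw k hk⟩)
    · refine (hprod (fun k => |D (val ω k)|) (fun k hk => ⟨abs_nonneg _, hD ω hω k hk⟩)).trans ?_
      exact Finset.prod_le_prod (fun k _ => abs_nonneg _) (fun k hk => hDY ω hω k (hIS hk))
    · exact Finset.prod_nonneg fun j _ => abs_nonneg _
    · exact hwp
  have hK2K : K2 ⊆ K := by rw [hK2]; exact filter_subset _ _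
  have hS1 : (1 : ℝ) ≤ 1 + S.card := by
    have : (0 : ℝ) ≤ S.card := Nat.cast_nonneg _
    linarith
  have hKcard : (K.card : ℝ) ≤ (1 + S.card) ^ (2 * s) := by
    rw [hK, Fintype.card_piFinset, Finset.prod_const, card_univ, Fintype.card_fin]
    push_cast
    apply pow_le_pow_left₀ (Nat.cast_nonneg _)
    linarith
  have hsum1 : ∑ κ ∈ K \ K2, ∑ ω ∈ W, ∏ j, (w (κ j) * D (val ω (κ j))) ≤ (1 + S.card) ^ (2 * s) * (δ * W.card) := by
    calc ∑ κ ∈ K \ K2, ∑ ω ∈ W, ∏ j, (w (κ j) * D (val ω (κ j))) ≤ ∑ _κ ∈ K \ K2, δ * W.card := by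
          apply Finset.sum_le_sum
          intro κ hκ
          rw [mem_sdiff] at hκ
          exact hterm1 κ hκ.1 hκ.2
      _ = ((K \ K2).card : ℝ) * (δ * W.card) := by rw [Finset.sum_const, nsmul_eq_mul]
      _ ≤ (K.card : ℝ) * (δ * W.card) := by
          apply mul_le_mul_of_nonneg_right _ (by positivity)
          exact_mod_cast card_le_card sdiff_subset
      _ ≤ _ := mul_le_mul_of_nonneg_right hKcard (by positivity)
  -- grouping by the image
  obtain ⟨Q, hQ⟩ : ∃ Q, Q = S.powerset.filter (fun I => I.card ≤ s) := ⟨_, rfl⟩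
  have hmaps : ∀ κ ∈ K2, univ.image κ ∈ Q := by
    intro κ hκ
    have hκK := hK2K hκ
    rw [hQ, mem_filter, mem_powerset]
    refine ⟨?_, ?_⟩
    · intro k hk
      rw [mem_image] at hk
      obtain ⟨j, _, rfl⟩ := hk
      exact hKS κ hκK j
    · rw [hK2, mem_filter] at hκ
      have h1 : ∑ k ∈ univ.image κ, 2 ≤ ∑ k ∈ univ.image κ, (univ.filter (fun a => κ a = k)).card := by
        apply Finset.sum_le_sum
        intro k hk
        rw [mem_image] at hk
        obtain ⟨j, _, hjk⟩ := hk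
        obtain ⟨j', hj', hjj⟩ := hκ.2 j
        exact one_lt_card.2 ⟨j, mem_filter.2 ⟨mem_univ _, hjk⟩, j', mem_filter.2 ⟨mem_univ _, hjj.trans hjk⟩, hj'.symm⟩
      have h2 : ∑ k ∈ univ.image κ, (univ.filter (fun a => κ a = k)).card = 2 * s := by
        rw [← card_eq_sum_card_image, card_univ, Fintype.card_fin]
      rw [h2, Finset.sum_const, smul_eq_mul] at h1
      omega
  have hfib : ∀ I ∈ Q, ((K2.filter (fun κ => univ.image κ = I)).card : ℝ) ≤ (s : ℝ) ^ (2 * s) := by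
    intro I hI
    rw [hQ, mem_filter] at hI
    have h1 : K2.filter (fun κ => univ.image κ = I) ⊆ Fintype.piFinset (fun _ : Fin (2 * s) => I) := by
      intro κ hκ
      rw [mem_filter] at hκ
      rw [Fintype.mem_piFinset]
      intro j
      rw [← hκ.2]
      exact mem_image_of_mem κ (mem_univ j)
    have h2 := card_le_card h1
    rw [Fintype.card_piFinset, Finset.prod_const, card_univ, Fintype.card_fin] at h2
    calc ((K2.filter (fun κ => univ.image κ = I)).card : ℝ) ≤ (I.card : ℝ) ^ (2 * s) := by exact_mod_cast h2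
      _ ≤ (s : ℝ) ^ (2 * s) := pow_le_pow_left₀ (Nat.cast_nonneg _) (by exact_mod_cast hI.2) _
  have hsum2 : ∑ κ ∈ K2, ∑ ω ∈ W, ∏ j, (w (κ j) * D (val ω (κ j))) ≤
      (s : ℝ) ^ (2 * s) * (((s + 1) * (1 + 2 * β * ∑ k ∈ S, |w k|) ^ s + 2 ^ s * δ * ((s + 1) * (1 + S.card) ^ s)) * W.card) := by
    calc ∑ κ ∈ K2, ∑ ω ∈ W, ∏ j, (w (κ j) * D (val ω (κ j))) ≤
        ∑ κ ∈ K2, (∏ k ∈ univ.image κ, |w k|) * (((2 * β) ^ (univ.image κ).card + 2 ^ (univ.image κ).card * δ) * W.card) :=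
          Finset.sum_le_sum hterm2
      _ = ∑ I ∈ Q, ∑ κ ∈ K2.filter (fun κ => univ.image κ = I),
          (∏ k ∈ univ.image κ, |w k|) * (((2 * β) ^ (univ.image κ).card + 2 ^ (univ.image κ).card * δ) * W.card) :=
          (Finset.sum_fiberwise_of_maps_to hmaps _).symm
      _ ≤ ∑ I ∈ Q, (s : ℝ) ^ (2 * s) * ((∏ k ∈ I, |w k|) * (((2 * β) ^ I.card + 2 ^ I.card * δ) * W.card)) := by
          apply Finset.sum_le_sum
          intro I hI
          have h1 : ∑ κ ∈ K2.filter (fun κ => univ.image κ = I),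
              (∏ k ∈ univ.image κ, |w k|) * (((2 * β) ^ (univ.image κ).card + 2 ^ (univ.image κ).card * δ) * W.card) =
              ∑ _κ ∈ K2.filter (fun κ => univ.image κ = I), (∏ k ∈ I, |w k|) * (((2 * β) ^ I.card + 2 ^ I.card * δ) * W.card) := by
            apply Finset.sum_congr rfl
            intro κ hκ
            rw [(mem_filter.1 hκ).2]
          rw [h1, Finset.sum_const, nsmul_eq_mul]
          apply mul_le_mul_of_nonneg_right (hfib I hI)
          have : 0 ≤ ∏ k ∈ I, |w k| := Finset.prod_nonneg fun k _ => abs_nonneg _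
          positivity
      _ ≤ ∑ I ∈ Q, (s : ℝ) ^ (2 * s) * ((∏ k ∈ I, (2 * β * |w k|) + 2 ^ s * δ) * W.card) := by
          apply Finset.sum_le_sum
          intro I hI
          apply mul_le_mul_of_nonneg_left _ (by positivity)
          have hIQ := hI
          rw [hQ, mem_filter, mem_powerset] at hIQ
          have e : ∏ k ∈ I, (2 * β * |w k|) = (2 * β) ^ I.card * ∏ k ∈ I, |w k| := by
            rw [Finset.prod_mul_distrib, Finset.prod_const]
          have h1 : (∏ k ∈ I, |w k|) ≤ 1 := Finset.prod_le_one (fun k _ => abs_nonneg _) (fun k hk => hw k (hIQ.1 hk))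
          have h2 : 0 ≤ ∏ k ∈ I, |w k| := Finset.prod_nonneg fun k _ => abs_nonneg _
          have h3 : (2 : ℝ) ^ I.card ≤ 2 ^ s := pow_le_pow_right₀ (by norm_num) hIQ.2
          rw [e, ← mul_assoc]
          apply mul_le_mul_of_nonneg_right _ hW0
          calc (∏ k ∈ I, |w k|) * ((2 * β) ^ I.card + 2 ^ I.card * δ) =
              (2 * β) ^ I.card * (∏ k ∈ I, |w k|) + (∏ k ∈ I, |w k|) * (2 ^ I.card * δ) := by ring
            _ ≤ (2 * β) ^ I.card * (∏ k ∈ I, |w k|) + 1 * (2 ^ s * δ) := by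
                apply add_le_add le_rfl
                apply mul_le_mul h1 (mul_le_mul_of_nonneg_right h3 hδ) (by positivity) (by norm_num)
            _ = _ := by ring
      _ = (s : ℝ) ^ (2 * s) * ((∑ I ∈ Q, ∏ k ∈ I, (2 * β * |w k|) + 2 ^ s * δ * Q.card) * W.card) := by
          rw [← Finset.mul_sum, ← Finset.sum_mul, Finset.sum_add_distrib, Finset.sum_const, nsmul_eq_mul]
          ring
      _ ≤ _ := by
          apply mul_le_mul_of_nonneg_left _ (by positivity)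
          apply mul_le_mul_of_nonneg_right _ hW0
          have h1 := es_bound (fun k => 2 * β * |w k|) S (fun k _ => by positivity) s
          rw [← Finset.mul_sum] at h1
          have h2 := es_bound (fun _ => (1 : ℝ)) S (fun k _ => by norm_num) s
          simp only [Finset.prod_const_one, Finset.sum_const, nsmul_eq_mul, mul_one] at h2
          rw [hQ]
          apply add_le_add h1
          exact mul_le_mul_of_nonneg_left h2 (by positivity)
  rw [← Finset.sum_sdiff hK2K]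
  have h9 : (1 + (S.card : ℝ)) ^ s ≤ (1 + S.card) ^ (2 * s) := pow_le_pow_right₀ hS1 (by omega)
  calc _ ≤ (1 + (S.card : ℝ)) ^ (2 * s) * (δ * W.card) + (s : ℝ) ^ (2 * s) * (((s + 1) * (1 + 2 * β * ∑ k ∈ S, |w k|) ^ s +
        2 ^ s * δ * ((s + 1) * (1 + S.card) ^ s)) * W.card) := add_le_add hsum1 hsum2
    _ ≤ (1 + (S.card : ℝ)) ^ (2 * s) * (δ * W.card) + (s : ℝ) ^ (2 * s) * (((s + 1) * (1 + 2 * β * ∑ k ∈ S, |w k|) ^ s +
        2 ^ s * δ * ((s + 1) * (1 + S.card) ^ (2 * s))) * W.card) := by gcongr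
    _ = _ := by ring

end Pool.Agent.Q236.CG
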