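import Pool.Agent.Q236.CG.Avg
import Pool.Agent.Q236.CG.Abs

set_option autoImplicit false

/-!
# Arrays of coefficients: the primes minus the model are weakly orthogonal
-/

namespace Pool.Agent.Q236.CG

open Finset Filter
open Pool.Agent.Q236.RP (ev_log_ge ev_pow_log Box mem_Box card_Box sv)

variable {n d : ℕ}

/-- the arrays of coefficients -/
noncomputable def BA (Z : Fin n → Fin d → ℤ) (Y : Fin n → Fin d → ℕ) : Finset (Fin n → Fin d → ℤ) :=
  Fintype.piFinset fun i => Box (Z i) (Y i)

lemma mem_BA (Z : Fin n → Fin d → ℤ) (Y : Fin n → Fin d → ℕ) (c : Fin n → Fin d → ℤ) :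
    c ∈ BA Z Y ↔ ∀ i, c i ∈ Box (Z i) (Y i) := by
  unfold BA
  rw [Fintype.mem_piFinset]

lemma upd_mem (Z : Fin n → Fin d → ℤ) (Y : Fin n → Fin d → ℕ) (c : Fin n → Fin d → ℤ) (hc : c ∈ BA Z Y) (i : Fin n)
    (b : Fin d → ℤ) (hb : b ∈ Box (Z i) (Y i)) : Function.update c i b ∈ BA Z Y := by
  rw [mem_BA] at hc ⊢
  intro j
  by_cases hj : j = i
  · rw [hj, Function.update_self]
    exact hb
  · rw [Function.update_of_ne hj]
    exact hc j

lemma sum_upd (Z : Fin n → Fin d → ℤ) (Y : Fin n → Fin d → ℕ) (i : Fin n) (H : (Fin n → Fin d → ℤ) → ℝ) :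
    ∑ c ∈ BA Z Y, ∑ b ∈ Box (Z i) (Y i), H (Function.update c i b) = (Box (Z i) (Y i)).card * ∑ c ∈ BA Z Y, H c := by
  have h1 : ∑ p ∈ BA Z Y ×ˢ Box (Z i) (Y i), H (Function.update p.1 i p.2) = ∑ p ∈ BA Z Y ×ˢ Box (Z i) (Y i), H p.1 := by
    apply Finset.sum_nbij' (fun p => (Function.update p.1 i p.2, p.1 i)) (fun p => (Function.update p.1 i p.2, p.1 i))
    · intro p hp
      rw [mem_product] at hp ⊢
      exact ⟨upd_mem Z Y p.1 hp.1 i p.2 hp.2, (mem_BA Z Y p.1).1 hp.1 i⟩
    · intro p hp
      rw [mem_product] at hp ⊢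
      exact ⟨upd_mem Z Y p.1 hp.1 i p.2 hp.2, (mem_BA Z Y p.1).1 hp.1 i⟩
    · intro p _
      ext1
      · simp
      · simp
    · intro p _
      ext1
      · simp
      · simp
    · intro p _
      rfl
  rw [← Finset.sum_product', h1, Finset.sum_product, Finset.mul_sum]
  apply Finset.sum_congr rfl
  intro c _
  simp only
  rw [Finset.sum_const, nsmul_eq_mul]

/-- the values at `k` -/
def vals (f : Fin n → ℕ → ℤ) (M : Fin n → ℤ) (c : Fin n → Fin d → ℤ) (k : ℕ) : Fin n → ℤ := fun i => evm (f i) (M i) (c i) k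

/-- all the values are primes -/
noncomputable def PP (v : Fin n → ℤ) : ℝ := ∏ i, pri (v i)

/-- the model -/
noncomputable def MM (z : ℕ) (v : Fin n → ℤ) : ℝ := ∏ i, mi z (v i)

/-- the difference -/
noncomputable def DD (z : ℕ) (v : Fin n → ℤ) : ℝ := PP v - MM z v

lemma DD_sum (z : ℕ) (v : Fin n → ℤ) : DD z v =
    ∑ i, di z (v i) * ((∏ j ∈ univ.filter (fun j => j < i), pri (v j)) * ∏ j ∈ univ.filter (fun j => i < j), mi z (v j)) := by
  have h1 := Finset.prod_add_ordered (univ : Finset (Fin n)) (fun i => mi z (v i)) (fun i => di z (v i))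
  have h2 : ∀ w : ℤ, mi z w + di z w = pri w := fun w => by rw [di_eq]; ring
  simp only [h2] at h1
  unfold DD PP MM
  rw [h1, add_sub_cancel_left]
  apply Finset.sum_congr rfl
  intro i _
  ring

/-- **Weak orthogonality** -/
theorem orth_arr (n d A B C : ℕ) : ∀ᶠ X : ℕ in atTop, ∀ (z : ℕ), (z : ℝ) ≤ Real.log X ^ A → Real.log X ^ (C * d) ≤ z →
    ∀ (f : Fin n → ℕ → ℤ) (M : Fin n → ℤ) (Z : Fin n → Fin d → ℤ) (Y : Fin n → Fin d → ℕ) (S : Finset ℕ),
    (∀ i, CZ C X (f i) (M i) (Z i) (Y i) S) → Orth (BA Z Y) (vals f M) (DD z) S d (1 / Real.log X ^ B) := by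
  filter_upwards [avg_small d A (B + 1) C, mi_small A C (1 / 2) (by norm_num), ev_log_ge 1, ev_log_ge n,
    ev_pow_log (C + 1)] with X havg hmi hL1 hLn hP z hzA hzC f M Z Y S hsz
  obtain ⟨L, hL⟩ : ∃ L, L = Real.log (X : ℝ) := ⟨_, rfl⟩
  rw [← hL] at havg hmi hL1 hLn hP hzA hzC ⊢
  have hL0 : 0 < L := by linarith
  have hLp : ∀ j : ℕ, 0 < L ^ j := fun j => by positivity
  have hLp1 : ∀ j : ℕ, 1 ≤ L ^ j := fun j => one_le_pow₀ hL1
  have hXp : (0 : ℝ) < X := lt_of_lt_of_le (hLp _) hP
  have hz1 : 1 ≤ z := by
    have : (1 : ℝ) ≤ z := (hLp1 _).trans hzC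
    exact_mod_cast this
  have hmi1 : ∀ v : ℤ, (X : ℝ) / L ^ C ≤ v → 0 ≤ mi z v ∧ mi z v ≤ 1 := by
    intro v hv
    have h1 := hmi z v hz1 hzA hv
    refine ⟨h1.1, h1.2.trans ?_⟩
    rw [div_le_one hL0]
    calc L ^ (1 / 2 : ℝ) ≤ L ^ (1 : ℝ) := Real.rpow_le_rpow_of_exponent_le hL1 (by norm_num)
      _ = L := Real.rpow_one L
  refine ⟨?_⟩
  intro J' hJ' k0 hk0 hk0J hJ'd G hG hGv
  have hkey : ∀ i : Fin n, |∑ c ∈ BA Z Y, G c * (di z (vals f M c k0 i) *
      ((∏ j ∈ univ.filter (fun j => j < i), pri (vals f M c k0 j)) *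
        ∏ j ∈ univ.filter (fun j => i < j), mi z (vals f M c k0 j)))| ≤ (BA Z Y).card / L ^ (B + 1) := by
    intro i
    obtain ⟨H, hH⟩ : ∃ H : (Fin n → Fin d → ℤ) → ℝ, H = fun c => G c * (di z (vals f M c k0 i) *
      ((∏ j ∈ univ.filter (fun j => j < i), pri (vals f M c k0 j)) *
        ∏ j ∈ univ.filter (fun j => i < j), mi z (vals f M c k0 j))) := ⟨_, rfl⟩
    have hsum := sum_upd Z Y i H
    have hYpos : ∀ j, 1 ≤ Y i j := by
      intro j
      have h1 := (hsz i).side j
      rw [← hL] at h1
      have h2 : (0 : ℝ) < X / L ^ C := by positivity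
      have : (0 : ℝ) < Y i j := lt_of_lt_of_le h2 h1
      exact_mod_cast this
    have hcard : (0 : ℝ) < (Box (Z i) (Y i)).card := by
      rw [card_Box]
      push_cast
      apply Finset.prod_pos
      intro j _
      exact_mod_cast hYpos j
    have hbound : |∑ c ∈ BA Z Y, ∑ b ∈ Box (Z i) (Y i), H (Function.update c i b)| ≤
        (BA Z Y).card * ((Box (Z i) (Y i)).card / L ^ (B + 1)) := by
      refine (Finset.abs_sum_le_sum_abs _ _).trans ?_
      calc ∑ c ∈ BA Z Y, |∑ b ∈ Box (Z i) (Y i), H (Function.update c i b)| ≤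
          ∑ _c ∈ BA Z Y, ((Box (Z i) (Y i)).card : ℝ) / L ^ (B + 1) := by
            apply Finset.sum_le_sum
            intro c hc
            have h1 := havg z (f i) (M i) (Z i) (Y i) J' k0 hzA hzC hk0J hJ'd
              ((hsz i).mono (insert_subset hk0 hJ'))
              (fun b => G (Function.update c i b) * ((∏ j ∈ univ.filter (fun j => j < i), pri (vals f M c k0 j)) *
                ∏ j ∈ univ.filter (fun j => i < j), mi z (vals f M c k0 j))) (by
              intro b hb
              rw [abs_mul, abs_mul, Finset.abs_prod, Finset.abs_prod]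
              apply mul_le_one₀ (hG _ (upd_mem Z Y c hc i b hb))
              · exact mul_nonneg (Finset.prod_nonneg fun j _ => abs_nonneg _) (Finset.prod_nonneg fun j _ => abs_nonneg _)
              · apply mul_le_one₀
                · apply Finset.prod_le_one (fun j _ => abs_nonneg _)
                  intro j _
                  rw [abs_of_nonneg (pri_nonneg _)]
                  exact pri_le _
                · exact Finset.prod_nonneg fun j _ => abs_nonneg _
                · apply Finset.prod_le_one (fun j _ => abs_nonneg _)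
                  intro j _
                  have h2 := (hsz j).low k0 hk0 (c j) ((mem_BA Z Y c).1 hc j)
                  rw [← hL] at h2
                  have h3 := hmi1 _ h2
                  unfold vals
                  rw [abs_of_nonneg h3.1]
                  exact h3.2) (by
              intro b t
              congr 1
              apply hGv
              intro k hk
              ext j
              unfold vals
              by_cases hj : j = i
              · rw [hj, Function.update_self, Function.update_self, evm_sv _ _ _ J' hJ'd, Finset.prod_eq_zero hk (sub_self _),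
                  mul_zero, mul_zero, add_zero]
              · rw [Function.update_of_ne hj, Function.update_of_ne hj])
            refine le_trans (le_of_eq ?_) h1
            congr 1
            apply Finset.sum_congr rfl
            intro b _
            rw [hH]
            simp only
            have e1 : vals f M (Function.update c i b) k0 i = evm (f i) (M i) b k0 := by
              unfold vals
              rw [Function.update_self]
            have e2 : ∀ j, j ≠ i → vals f M (Function.update c i b) k0 j = vals f M c k0 j := by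
              intro j hj
              unfold vals
              rw [Function.update_of_ne hj]
            have e3 : ∏ j ∈ univ.filter (fun j => j < i), pri (vals f M (Function.update c i b) k0 j) =
                ∏ j ∈ univ.filter (fun j => j < i), pri (vals f M c k0 j) := by
              apply Finset.prod_congr rfl
              intro j hj
              rw [e2 j (mem_filter.1 hj).2.ne]
            have e4 : ∏ j ∈ univ.filter (fun j => i < j), mi z (vals f M (Function.update c i b) k0 j) =
                ∏ j ∈ univ.filter (fun j => i < j), mi z (vals f M c k0 j) := by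
              apply Finset.prod_congr rfl
              intro j hj
              rw [e2 j (mem_filter.1 hj).2.ne']
            rw [e1, e3, e4]
            ring
        _ = _ := by rw [Finset.sum_const, nsmul_eq_mul]
    rw [hsum, abs_mul, abs_of_pos hcard] at hbound
    have h2 : ((Box (Z i) (Y i)).card : ℝ) * |∑ c ∈ BA Z Y, H c| ≤ (Box (Z i) (Y i)).card * ((BA Z Y).card / L ^ (B + 1)) := by
      refine hbound.trans (le_of_eq ?_)
      ring
    have h3 := le_of_mul_le_mul_left h2 hcard
    rw [hH] at h3
    exact h3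
  have e : ∑ c ∈ BA Z Y, G c * DD z (vals f M c k0) = ∑ i : Fin n, ∑ c ∈ BA Z Y, G c * (di z (vals f M c k0 i) *
      ((∏ j ∈ univ.filter (fun j => j < i), pri (vals f M c k0 j)) *
        ∏ j ∈ univ.filter (fun j => i < j), mi z (vals f M c k0 j))) := by
    rw [Finset.sum_comm]
    apply Finset.sum_congr rfl
    intro c _
    rw [DD_sum, Finset.mul_sum]
  rw [e]
  refine (Finset.abs_sum_le_sum_abs _ _).trans ?_
  refine (Finset.sum_le_sum (fun i _ => hkey i)).trans ?_
  rw [Finset.sum_const, card_univ, Fintype.card_fin, nsmul_eq_mul]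
  have hb0 : (0 : ℝ) ≤ (BA Z Y).card := Nat.cast_nonneg _
  calc (n : ℝ) * ((BA Z Y).card / L ^ (B + 1)) = (n / L) * (1 / L ^ B * (BA Z Y).card) := by
        rw [pow_succ]
        field_simp
    _ ≤ 1 * (1 / L ^ B * (BA Z Y).card) := by
        apply mul_le_mul_of_nonneg_right _ (by positivity)
        rw [div_le_one hL0]
        exact hLn
    _ = _ := one_mul _

end Pool.Agent.Q236.CG
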