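import Pool.Agent.Q236.CG.Ints
import Pool.Agent.Q236.RP.Box

set_option autoImplicit false

/-!
# Averages over a box of coefficients: one factor primes minus model
-/

namespace Pool.Agent.Q236.CG

open Finset Filter
open Pool.Agent.H373R2.T7 (pz Vz lamz mem_pz lamz_nonneg Vz_pos Vz_inv_le)
open Pool.Agent.Q236.RP (ev_log_ge ev_pow_log Box mem_Box card_Box shift_sum sv sv_sum vp_coeff_le log_window ev_loglog)

/-- the product over the primes up to a power of the logarithm is small -/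
theorem Vz_inv_eta (E : ℕ) (η : ℝ) (hη : 0 < η) : ∀ᶠ X : ℕ in atTop, ∀ z : ℕ, 1 ≤ z → (z : ℝ) ≤ Real.log X ^ E →
    (Vz z)⁻¹ ≤ Real.log X ^ η := by
  obtain ⟨C, hC⟩ := Pool.Agent.Helper256.KM.mertens_inv
  have hlim : Tendsto (fun N : ℕ => Real.log (N : ℝ)) atTop atTop :=
    Real.tendsto_log_atTop.comp (tendsto_natCast_atTop_atTop (R := ℝ))
  have h2 : ∀ᶠ N : ℕ in atTop, (Real.exp (2 * C) * (E : ℝ) ^ 2) * Real.log (Real.log N) ^ 2 ≤ Real.log N ^ η := by
    have h3 := (isLittleO_log_rpow_atTop (show 0 < η / 3 by positivity)).bound (show (0 : ℝ) < 1 by norm_num)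
    have h4 := hlim.eventually h3
    have h5 := ((tendsto_rpow_atTop (show 0 < η / 3 by positivity)).comp hlim).eventually_ge_atTop
      (Real.exp (2 * C) * (E : ℝ) ^ 2)
    filter_upwards [h4, h5, hlim.eventually_ge_atTop 1] with N h6 h7 h8
    simp only [Function.comp_apply] at h7
    have hL0 : 0 < Real.log (N : ℝ) := by linarith
    have h9 : 0 ≤ Real.log (Real.log N) := Real.log_nonneg h8
    rw [one_mul, Real.norm_of_nonneg h9, Real.norm_of_nonneg (Real.rpow_pos_of_pos hL0 _).le] at h6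
    have e : Real.log N ^ η = Real.log N ^ (η / 3) * (Real.log N ^ (η / 3)) ^ 2 := by
      rw [← Real.rpow_natCast, ← Real.rpow_mul hL0.le, ← Real.rpow_add hL0]
      congr 1
      push_cast
      ring
    rw [e]
    exact mul_le_mul h7 (pow_le_pow_left₀ h9 h6 2) (by positivity) (Real.rpow_pos_of_pos hL0 _).le
  have h1 : ∀ᶠ N : ℕ in atTop, (3 : ℝ) ≤ Real.log N ^ η :=
    ((tendsto_rpow_atTop hη).comp hlim).eventually_ge_atTop 3
  filter_upwards [h2, h1, hlim.eventually_ge_atTop 3] with N hb hb3 hL z hz hzE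
  rcases lt_or_ge z 3 with h3 | h3
  · refine (Vz_inv_le z hz).trans ?_
    have : (z : ℝ) ≤ 3 := by exact_mod_cast h3.le
    linarith
  have h4 := hC z h3
  have h5 : (Vz z)⁻¹ ≤ Real.exp (2 * ∑ p ∈ pz z, 1 / (p : ℝ)) := by
    unfold Vz
    rw [← prod_inv_distrib, mul_sum, Real.exp_sum]
    apply Finset.prod_le_prod
    · intro p hp
      have hp2 : (2 : ℝ) ≤ p := by exact_mod_cast (mem_pz.1 hp).2.two_le
      apply inv_nonneg.2
      rw [sub_nonneg, div_le_one (by linarith)]; linarith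
    · intro p hp
      have hp2 : (2 : ℝ) ≤ p := by exact_mod_cast (mem_pz.1 hp).2.two_le
      have h6 : (1 - 1 / (p : ℝ))⁻¹ ≤ 2 * (1 / p) + 1 := by
        rw [inv_le_iff_one_le_mul₀ (by rw [sub_pos, div_lt_one (by linarith)]; linarith)]
        have h7 : 0 < 1 / (p : ℝ) := by positivity
        have h8 : 1 / (p : ℝ) ≤ 1 / 2 := one_div_le_one_div_of_le (by norm_num) hp2
        nlinarith
      exact h6.trans (Real.add_one_le_exp _)
  have hz3 : (3 : ℝ) ≤ z := by exact_mod_cast h3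
  have hlz : 1 ≤ Real.log z := by
    rw [← Real.log_exp 1]
    apply Real.log_le_log (Real.exp_pos _)
    have := Real.exp_one_lt_d9
    linarith
  have h6 : ∑ p ∈ pz z, 1 / (p : ℝ) ≤ Real.log (Real.log z) + C := by
    have := (abs_le.1 h4).2
    unfold pz
    linarith
  have h7 : Real.log z ≤ E * Real.log (Real.log N) := by
    have h8 := Real.log_le_log (by linarith) hzE
    rw [Real.log_pow] at h8
    exact h8
  calc (Vz z)⁻¹ ≤ Real.exp (2 * ∑ p ∈ pz z, 1 / (p : ℝ)) := h5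
    _ ≤ Real.exp (2 * (Real.log (Real.log z) + C)) := Real.exp_le_exp.2 (by linarith)
    _ = Real.exp (2 * C) * Real.log z ^ 2 := by
        rw [mul_add, Real.exp_add, mul_comm 2 (Real.log (Real.log z)), Real.exp_mul, Real.exp_log (by linarith)]
        norm_num
        ring
    _ ≤ Real.exp (2 * C) * (E * Real.log (Real.log N)) ^ 2 := by gcongr
    _ = (Real.exp (2 * C) * (E : ℝ) ^ 2) * Real.log (Real.log N) ^ 2 := by ring
    _ ≤ _ := hb

/-- the model on the integers -/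
noncomputable def mi (z : ℕ) (v : ℤ) : ℝ := lamz z v.toNat / Real.log v.toNat

/-- the indicator function of the primes on the integers -/
noncomputable def pri (v : ℤ) : ℝ := if v.toNat.Prime then 1 else 0

lemma di_eq (z : ℕ) (v : ℤ) : di z v = pri v - mi z v := rfl

lemma pri_nonneg (v : ℤ) : 0 ≤ pri v := by
  unfold pri
  split_ifs <;> norm_num

lemma pri_le (v : ℤ) : pri v ≤ 1 := by
  unfold pri
  split_ifs <;> norm_num

/-- the size of the model -/
theorem mi_small (A C : ℕ) (η : ℝ) (hη : 0 < η) : ∀ᶠ X : ℕ in atTop, ∀ (z : ℕ) (v : ℤ), 1 ≤ z →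
    (z : ℝ) ≤ Real.log X ^ A → (X : ℝ) / Real.log X ^ C ≤ v → 0 ≤ mi z v ∧ mi z v ≤ Real.log X ^ η / Real.log X := by
  have hlim : Tendsto (fun N : ℕ => Real.log (N : ℝ)) atTop atTop :=
    Real.tendsto_log_atTop.comp (tendsto_natCast_atTop_atTop (R := ℝ))
  have h2 : ∀ᶠ N : ℕ in atTop, (2 : ℝ) ≤ Real.log N ^ (η / 2) :=
    ((tendsto_rpow_atTop (show 0 < η / 2 by positivity)).comp hlim).eventually_ge_atTop 2
  filter_upwards [Vz_inv_eta A (η / 2) (by positivity), h2, ev_log_ge 2, ev_loglog C (1 / 2) (by norm_num),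
    ev_pow_log (C + 1)] with X hV h2 hL2 hX1 hP z v hz hzA hv
  obtain ⟨L, hL⟩ : ∃ L, L = Real.log (X : ℝ) := ⟨_, rfl⟩
  rw [← hL] at hV h2 hL2 hX1 hP hzA hv ⊢
  have hL0 : 0 < L := by linarith
  have hLp : ∀ j : ℕ, 0 < L ^ j := fun j => by positivity
  have hXp : (0 : ℝ) < X := lt_of_lt_of_le (hLp _) hP
  have hv1 : L ≤ v := by
    refine le_trans ?_ hv
    rw [le_div_iff₀ (hLp _)]
    calc L * L ^ C = L ^ (C + 1) := by ring
      _ ≤ X := hP
  have hv0 : (0 : ℝ) < v := by linarith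
  have hv0z : 0 < v := by exact_mod_cast hv0
  have hnat : ((v.toNat : ℕ) : ℝ) = v := by
    have : ((v.toNat : ℕ) : ℤ) = v := Int.toNat_of_nonneg hv0z.le
    exact_mod_cast this
  have hlv : L / 2 ≤ Real.log v := by
    have h3 := Real.log_le_log (by positivity) hv
    rw [Real.log_div hXp.ne' (by positivity), Real.log_pow, ← hL] at h3
    linarith
  have hlv0 : 0 < Real.log v := by linarith
  unfold mi
  rw [hnat]
  refine ⟨div_nonneg (lamz_nonneg _ _) hlv0.le, ?_⟩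
  have h4 : lamz z v.toNat ≤ L ^ (η / 2) := by
    unfold lamz
    split_ifs
    · exact hV z hz hzA
    · positivity
  have hη0 : 0 < L ^ (η / 2) := Real.rpow_pos_of_pos hL0 _
  calc lamz z v.toNat / Real.log v ≤ L ^ (η / 2) / (L / 2) := div_le_div₀ hη0.le h4 (by positivity) hlv
    _ = L ^ (η / 2) * 2 / L := by field_simp
    _ ≤ L ^ (η / 2) * L ^ (η / 2) / L := by
        apply div_le_div_of_nonneg_right _ hL0.le
        exact mul_le_mul_of_nonneg_left h2 hη0.le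
    _ = L ^ η / L := by
        rw [← Real.rpow_add hL0]
        congr 2
        ring

/-- truncation -/
noncomputable def cl (x : ℝ) : ℝ := max (-1) (min 1 x)

lemma cl_abs (x : ℝ) : |cl x| ≤ 1 := by
  unfold cl
  rw [abs_le]
  constructor
  · exact le_max_left _ _
  · exact max_le (by norm_num) (min_le_left _ _)

lemma cl_eq (x : ℝ) (hx : |x| ≤ 1) : cl x = x := by
  unfold cl
  rw [abs_le] at hx
  rw [min_eq_right hx.2, max_eq_right hx.1]

variable {d : ℕ}

/-- the value at `k` -/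
def evm (f : ℕ → ℤ) (M : ℤ) (c : Fin d → ℤ) (k : ℕ) : ℤ := f k + M * ∑ i, c i * (k : ℤ) ^ (i : ℕ)

lemma evm_sv (f : ℕ → ℤ) (M : ℤ) (c : Fin d → ℤ) (S : Finset ℕ) (hS : S.card < d) (t : ℤ) (k : ℕ) :
    evm f M (c + sv d 1 S t) k = evm f M c k + t * (M * ∏ s ∈ S, ((k : ℤ) - s)) := by
  unfold evm
  have h := sv_sum 1 S hS t k
  have e : ∑ i, (c + sv d 1 S t) i * (k : ℤ) ^ (i : ℕ) = ∑ i, c i * (k : ℤ) ^ (i : ℕ) + ∑ i, sv d 1 S t i * (k : ℤ) ^ (i : ℕ) := by
    rw [← Finset.sum_add_distrib]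
    apply Finset.sum_congr rfl
    intro i _
    rw [Pi.add_apply]
    ring
  rw [e, h]
  ring

lemma shift_sum' (Z : Fin d → ℤ) (Y : Fin d → ℕ) (hY : ∀ i, 1 ≤ Y i) (v : Fin d → ℤ) (F : (Fin d → ℤ) → ℝ)
    (hF : ∀ c, |F c| ≤ 1) :
    |∑ c ∈ Box Z Y, F (c + v) - ∑ c ∈ Box Z Y, F c| ≤ 2 * ((∑ i, |(v i : ℝ)| / Y i) * (Box Z Y).card) := by
  have h1 := shift_sum Z Y hY v (fun c => (F c + 1) / 2) (fun c => by linarith [(abs_le.1 (hF c)).1])
    (fun c => by linarith [(abs_le.1 (hF c)).2])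
  have e : ∀ g : (Fin d → ℤ) → ℝ, ∑ c ∈ Box Z Y, (g c + 1) / 2 = (∑ c ∈ Box Z Y, g c) / 2 + (Box Z Y).card / 2 := by
    intro g
    rw [← Finset.sum_div, Finset.sum_add_distrib, Finset.sum_const, nsmul_eq_mul, mul_one, add_div]
  rw [e, e F] at h1
  have e2 : (∑ c ∈ Box Z Y, F (c + v)) / 2 + ((Box Z Y).card : ℝ) / 2 - ((∑ c ∈ Box Z Y, F c) / 2 + ((Box Z Y).card : ℝ) / 2) =
      (∑ c ∈ Box Z Y, F (c + v) - ∑ c ∈ Box Z Y, F c) / 2 := by ring
  rw [e2, abs_div, abs_of_pos (by norm_num : (0 : ℝ) < 2)] at h1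
  rw [div_le_iff₀ (by norm_num)] at h1
  linarith

/-- sizes -/
structure CZ (C X : ℕ) (f : ℕ → ℤ) (M : ℤ) (Z : Fin d → ℤ) (Y : Fin d → ℕ) (S : Finset ℕ) : Prop where
  side : ∀ i, (X : ℝ) / Real.log X ^ C ≤ Y i
  pts : ∀ k ∈ S, (k : ℝ) ≤ Real.log X ^ C
  mul0 : M ≠ 0
  mulC : |(M : ℝ)| ≤ Real.log X ^ C
  low : ∀ k ∈ S, ∀ c ∈ Box Z Y, (X : ℝ) / Real.log X ^ C ≤ evm f M c k
  up : ∀ k ∈ S, ∀ c ∈ Box Z Y, (evm f M c k : ℝ) ≤ X * Real.log X ^ C

lemma CZ.mono {C X : ℕ} {f : ℕ → ℤ} {M : ℤ} {Z : Fin d → ℤ} {Y : Fin d → ℕ} {S T : Finset ℕ} (h : CZ C X f M Z Y S)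
    (hT : T ⊆ S) : CZ C X f M Z Y T :=
  ⟨h.side, fun k hk => h.pts k (hT hk), h.mul0, h.mulC, fun k hk => h.low k (hT hk), fun k hk => h.up k (hT hk)⟩

/-- **One factor** -/
theorem avg_small (d A B C : ℕ) : ∀ᶠ X : ℕ in atTop, ∀ (z : ℕ) (f : ℕ → ℤ) (M : ℤ) (Z : Fin d → ℤ) (Y : Fin d → ℕ)
    (J' : Finset ℕ) (k0 : ℕ), (z : ℝ) ≤ Real.log X ^ A → Real.log X ^ (C * d) ≤ z → k0 ∉ J' → J'.card < d →
    CZ C X f M Z Y (insert k0 J') → ∀ Φ : (Fin d → ℤ) → ℝ, (∀ c ∈ Box Z Y, |Φ c| ≤ 1) →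
    (∀ c (t : ℕ), Φ (c + sv d 1 J' t) = Φ c) →
    |∑ c ∈ Box Z Y, Φ c * di z (evm f M c k0)| ≤ (Box Z Y).card / Real.log X ^ B := by
  obtain ⟨U1, hU1⟩ : ∃ U1, U1 = 2 * (C * d) + C + B + 6 := ⟨_, rfl⟩
  obtain ⟨W, hW⟩ : ∃ W, W = C * d + C + B + 6 := ⟨_, rfl⟩
  filter_upwards [cg_int A (C + 1) W (by omega), mi_small A (C + 1) (1 / 2) (by norm_num), ev_log_ge 16, ev_log_ge (2 ^ d),
    ev_log_ge (4 * d + 2), ev_pow_log (U1 + 1)] with X hint hmi hL16 hL2d hLd4 hP z f M Z Y J' k0 hzA hzC hk0 hJ'd hsz Φ hΦ hΦs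
  obtain ⟨L, hL⟩ : ∃ L, L = Real.log (X : ℝ) := ⟨_, rfl⟩
  rw [← hL] at hint hmi hL16 hL2d hLd4 hP hzA hzC ⊢
  have side := hsz.side
  have pts := hsz.pts
  have mulC := hsz.mulC
  have low := hsz.low k0 (mem_insert_self _ _)
  have up := hsz.up k0 (mem_insert_self _ _)
  rw [← hL] at side pts mulC low up
  have hL1 : 1 ≤ L := by linarith
  have hL0 : 0 < L := by linarith
  have hX1 : (1 : ℝ) ≤ X := (one_le_pow₀ hL1).trans hP
  have hX0 : (0 : ℝ) < X := by linarith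
  have hLp : ∀ j : ℕ, 0 < L ^ j := fun j => by positivity
  have hLp1 : ∀ j : ℕ, 1 ≤ L ^ j := fun j => one_le_pow₀ hL1
  have hLL : ∀ {i j : ℕ}, i ≤ j → L ^ i ≤ L ^ j := fun h => pow_le_pow_right₀ hL1 h
  have hd1 : 1 ≤ d := by omega
  have hz1 : 1 ≤ z := by
    have : (1 : ℝ) ≤ z := (hLp1 _).trans hzC
    exact_mod_cast this
  have hYpos : ∀ i, 1 ≤ Y i := by
    intro i
    have h1 := side i
    have h2 : (0 : ℝ) < X / L ^ C := by positivity
    have : (0 : ℝ) < Y i := lt_of_lt_of_le h2 h1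
    exact_mod_cast this
  -- the number of shifts
  obtain ⟨N, hN⟩ : ∃ N, N = ⌊(X : ℝ) / L ^ U1⌋₊ := ⟨_, rfl⟩
  have hXU : 1 ≤ (X : ℝ) / L ^ U1 := by
    rw [one_le_div (hLp _)]
    exact (hLL (by omega)).trans hP
  have hN1 : 1 ≤ N := by
    rw [hN]
    exact Nat.floor_pos.2 hXU
  have hNle : (N : ℝ) ≤ X / L ^ U1 := by rw [hN]; exact Nat.floor_le (by positivity)
  have hNge : (X : ℝ) / L ^ U1 ≤ 2 * N := by
    have h1 := Nat.lt_floor_add_one ((X : ℝ) / L ^ U1)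
    rw [← hN] at h1
    have : (1 : ℝ) ≤ N := by exact_mod_cast hN1
    linarith
  have hN0 : (0 : ℝ) < N := by exact_mod_cast hN1
  -- the direction
  obtain ⟨D, hD⟩ : ∃ D : ℤ, D = M * ∏ s ∈ J', ((k0 : ℤ) - s) := ⟨_, rfl⟩
  have hD0 : D ≠ 0 := by
    rw [hD]
    apply mul_ne_zero hsz.mul0
    rw [Finset.prod_ne_zero_iff]
    intro s hs
    have : s ≠ k0 := fun h => hk0 (h ▸ hs)
    omega
  have hDabs : |(D : ℝ)| ≤ L ^ (C * d) := by
    rw [hD]
    push_cast
    rw [abs_mul, Finset.abs_prod]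
    calc |(M : ℝ)| * ∏ s ∈ J', |(k0 : ℝ) - s| ≤ L ^ C * ∏ _s ∈ J', L ^ C := by
          apply mul_le_mul mulC _ (Finset.prod_nonneg fun s _ => abs_nonneg _) (hLp _).le
          apply Finset.prod_le_prod (fun s _ => abs_nonneg _)
          intro s hs
          have h1 := pts k0 (mem_insert_self _ _)
          have h2 := pts s (mem_insert_of_mem hs)
          rw [abs_le]
          have : (0 : ℝ) ≤ s := Nat.cast_nonneg s
          have : (0 : ℝ) ≤ k0 := Nat.cast_nonneg k0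
          constructor <;> linarith
      _ = L ^ (C * (J'.card + 1)) := by rw [Finset.prod_const, ← pow_mul, ← pow_add]; ring
      _ ≤ L ^ (C * d) := hLL (Nat.mul_le_mul_left C hJ'd)
  have hDnat : D.natAbs ≤ z := by
    have h1 : ((D.natAbs : ℕ) : ℝ) ≤ z := by
      rw [Nat.cast_natAbs]
      push_cast
      exact hDabs.trans hzC
    exact_mod_cast h1
  -- the shift vectors
  have hcoef : ∀ (t : ℕ) (i : Fin d), |(sv d 1 J' t i : ℝ)| ≤ t * L ^ (C * d + 1) := by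
    intro t i
    unfold sv
    push_cast
    rw [mul_one, abs_mul, abs_of_nonneg (Nat.cast_nonneg t : (0 : ℝ) ≤ t)]
    apply mul_le_mul_of_nonneg_left _ (Nat.cast_nonneg t)
    obtain ⟨K, hK⟩ : ∃ K, K = ⌊L ^ C⌋₊ := ⟨_, rfl⟩
    have hKL : (K : ℝ) ≤ L ^ C := by rw [hK]; exact Nat.floor_le (hLp _).le
    have h1 := vp_coeff_le K J' (by
      intro s hs
      rw [hK]
      exact Nat.le_floor (pts s (mem_insert_of_mem hs))) i
    have h2 : |((Pool.Agent.Q236.RP.vp J').coeff i : ℝ)| ≤ ((K : ℝ) + 1) ^ J'.card := by exact_mod_cast h1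
    refine h2.trans ?_
    calc ((K : ℝ) + 1) ^ J'.card ≤ (2 * L ^ C) ^ J'.card := by
          apply pow_le_pow_left₀ (by positivity)
          have := hLp1 C
          linarith
      _ ≤ (2 * L ^ C) ^ d := by
          apply pow_le_pow_right₀ _ hJ'd.le
          have := hLp1 C
          linarith
      _ = 2 ^ d * L ^ (C * d) := by rw [mul_pow, ← pow_mul]
      _ ≤ L * L ^ (C * d) := mul_le_mul_of_nonneg_right hL2d (hLp _).le
      _ = L ^ (C * d + 1) := by ring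
  have herr : ∀ t : ℕ, t < N → ∑ i, |(sv d 1 J' t i : ℝ)| / Y i ≤ d / L ^ (B + 3) := by
    intro t ht
    calc ∑ i, |(sv d 1 J' t i : ℝ)| / Y i ≤ ∑ _i : Fin d, (1 : ℝ) / L ^ (B + 3) := by
          apply Finset.sum_le_sum
          intro i _
          have hYi : (0 : ℝ) < Y i := by exact_mod_cast hYpos i
          rw [div_le_div_iff₀ hYi (hLp _), one_mul]
          have ht' : (t : ℝ) ≤ X / L ^ U1 := by
            have : (t : ℝ) ≤ N := by exact_mod_cast ht.le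
            exact this.trans hNle
          calc |(sv d 1 J' t i : ℝ)| * L ^ (B + 3) ≤ (t * L ^ (C * d + 1)) * L ^ (B + 3) :=
                mul_le_mul_of_nonneg_right (hcoef t i) (hLp _).le
            _ ≤ ((X / L ^ U1) * L ^ (C * d + 1)) * L ^ (B + 3) := by gcongr
            _ ≤ X / L ^ C := by
                have e : L ^ U1 = L ^ (C * d + 1) * L ^ (B + 3) * L ^ C * L ^ (C * d + 2) := by rw [hU1]; ring
                rw [e]
                have e2 : X / (L ^ (C * d + 1) * L ^ (B + 3) * L ^ C * L ^ (C * d + 2)) * L ^ (C * d + 1) * L ^ (B + 3) =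
                    X / L ^ C / L ^ (C * d + 2) := by field_simp
                rw [e2]
                exact div_le_self (by positivity) (hLp1 _)
            _ ≤ Y i := side i
      _ = d / L ^ (B + 3) := by
          rw [Finset.sum_const, card_univ, Fintype.card_fin, nsmul_eq_mul]
          ring
  -- values on the lines
  have hshift : ∀ c ∈ Box Z Y, ∀ t : ℕ, t < N → (X : ℝ) / L ^ (C + 1) ≤ ((evm f M c k0 + t * D : ℤ) : ℝ) ∧
      ((evm f M c k0 + t * D : ℤ) : ℝ) ≤ X * L ^ (C + 1) := by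
    intro c hc t ht
    have h1 := low c hc
    have h2 := up c hc
    have ht' : (t : ℝ) ≤ X / L ^ U1 := by
      have : (t : ℝ) ≤ N := by exact_mod_cast ht.le
      exact this.trans hNle
    have h4 : |(t : ℝ) * D| ≤ X / L ^ (C + 1) := by
      rw [abs_mul, abs_of_nonneg (Nat.cast_nonneg t : (0 : ℝ) ≤ t)]
      calc (t : ℝ) * |(D : ℝ)| ≤ (X / L ^ U1) * L ^ (C * d) := by gcongr
        _ ≤ (X / (L ^ (C + 1) * L ^ (C * d))) * L ^ (C * d) := by
            apply mul_le_mul_of_nonneg_right _ (hLp _).le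
            apply div_le_div_of_nonneg_left hX0.le (by positivity)
            rw [← pow_add]
            exact hLL (by omega)
        _ = X / L ^ (C + 1) := by field_simp
    have h5 := abs_le.1 h4
    have h6 : 2 * ((X : ℝ) / L ^ (C + 1)) ≤ X / L ^ C := by
      rw [pow_succ, ← div_div, mul_div_assoc', div_le_iff₀ hL0]
      have : 0 < X / L ^ C := by positivity
      nlinarith
    have h7 : X * L ^ C + X / L ^ (C + 1) ≤ X * L ^ (C + 1) := by
      have h8 : X / L ^ (C + 1) ≤ X := div_le_self hX0.le (hLp1 _)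
      have h9 : X ≤ X * L ^ C := le_mul_of_one_le_right hX0.le (hLp1 _)
      have h10 : 2 * (X * L ^ C) ≤ X * L ^ (C + 1) := by
        rw [pow_succ]
        have : 0 < X * L ^ C := by positivity
        nlinarith
      linarith
    push_cast
    constructor <;> linarith [h5.1, h5.2]
  have hdi : ∀ v : ℤ, (X : ℝ) / L ^ (C + 1) ≤ v → |di z v| ≤ 1 := by
    intro v hv
    have h1 := hmi z v hz1 hzA hv
    have h2 : L ^ (1 / 2 : ℝ) / L ≤ 1 := by
      rw [div_le_one hL0]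
      calc L ^ (1 / 2 : ℝ) ≤ L ^ (1 : ℝ) := Real.rpow_le_rpow_of_exponent_le hL1 (by norm_num)
        _ = L := Real.rpow_one L
    rw [di_eq, abs_le]
    have h3 := pri_nonneg v
    have h4 := pri_le v
    constructor <;> linarith [h1.1, h1.2]
  -- the sums over the lines
  obtain ⟨F, hF⟩ : ∃ F : (Fin d → ℤ) → ℝ, F = fun c => cl (Φ c * di z (evm f M c k0)) := ⟨_, rfl⟩
  have hF1 : ∀ c, |F c| ≤ 1 := by
    intro c
    rw [hF]
    exact cl_abs _
  have hFt : ∀ c ∈ Box Z Y, ∀ t : ℕ, t < N → F (c + sv d 1 J' t) = Φ c * di z (evm f M c k0 + t * D) := by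
    intro c hc t ht
    rw [hF]
    simp only
    rw [hΦs, evm_sv f M c J' hJ'd t k0, ← hD]
    apply cl_eq
    rw [abs_mul]
    exact mul_le_one₀ (hΦ c hc) (abs_nonneg _) (hdi _ (hshift c hc t ht).1)
  have hline : ∀ c ∈ Box Z Y, |∑ t ∈ range N, F (c + sv d 1 J' t)| ≤ X * L ^ (C + 3) / L ^ (2 * W) := by
    intro c hc
    rw [Finset.sum_congr rfl (fun t ht => hFt c hc t (mem_range.1 ht)), ← Finset.mul_sum, abs_mul]
    have h2 := hint z D (evm f M c k0) N hzA hD0 hDnat (hshift c hc) (by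
      calc (N : ℝ) * |(D : ℝ)| ≤ (X / L ^ U1) * L ^ (C * d) := by gcongr
        _ = X / L ^ W := by
            have e : L ^ U1 = L ^ W * L ^ (C * d) := by rw [hU1, hW]; ring
            rw [e]
            field_simp)
    calc |Φ c| * |∑ t ∈ range N, di z (evm f M c k0 + t * D)| ≤ 1 * |∑ t ∈ range N, di z (evm f M c k0 + t * D)| :=
          mul_le_mul_of_nonneg_right (hΦ c hc) (abs_nonneg _)
      _ ≤ X * L ^ (C + 3) / L ^ (2 * W) := by rw [one_mul]; exact h2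
  -- conclusion
  obtain ⟨b, hb⟩ : ∃ b : ℝ, b = (Box Z Y).card := ⟨_, rfl⟩
  have hb0 : 0 ≤ b := by rw [hb]; exact Nat.cast_nonneg _
  have h1 : |∑ t ∈ range N, ∑ c ∈ Box Z Y, F (c + sv d 1 J' t)| ≤ b * (X * L ^ (C + 3) / L ^ (2 * W)) := by
    rw [Finset.sum_comm]
    refine (Finset.abs_sum_le_sum_abs _ _).trans ?_
    refine (Finset.sum_le_sum hline).trans (le_of_eq ?_)
    rw [Finset.sum_const, nsmul_eq_mul, hb]
  have h2 : |∑ t ∈ range N, ∑ c ∈ Box Z Y, F (c + sv d 1 J' t) - N * ∑ c ∈ Box Z Y, F c| ≤ N * (2 * (d / L ^ (B + 3) * b)) := by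
    have e : (N : ℝ) * ∑ c ∈ Box Z Y, F c = ∑ _t ∈ range N, ∑ c ∈ Box Z Y, F c := by
      rw [Finset.sum_const, card_range, nsmul_eq_mul]
    rw [e, ← Finset.sum_sub_distrib]
    refine (Finset.abs_sum_le_sum_abs _ _).trans ?_
    calc ∑ t ∈ range N, |∑ c ∈ Box Z Y, F (c + sv d 1 J' t) - ∑ c ∈ Box Z Y, F c| ≤
          ∑ _t ∈ range N, 2 * (d / L ^ (B + 3) * b) := by
          apply Finset.sum_le_sum
          intro t ht
          rw [mem_range] at ht
          refine (shift_sum' Z Y hYpos (sv d 1 J' t) F hF1).trans ?_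
          rw [← hb]
          have := herr t ht
          nlinarith [mul_le_mul_of_nonneg_right this hb0]
      _ = N * (2 * (d / L ^ (B + 3) * b)) := by rw [Finset.sum_const, card_range, nsmul_eq_mul]
  have h3 : (N : ℝ) * |∑ c ∈ Box Z Y, F c| ≤ b * (X * L ^ (C + 3) / L ^ (2 * W)) + N * (2 * (d / L ^ (B + 3) * b)) := by
    rw [← abs_of_nonneg hN0.le, ← abs_mul, abs_of_nonneg hN0.le]
    have e : (N : ℝ) * ∑ c ∈ Box Z Y, F c = ∑ t ∈ range N, ∑ c ∈ Box Z Y, F (c + sv d 1 J' t) -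
        (∑ t ∈ range N, ∑ c ∈ Box Z Y, F (c + sv d 1 J' t) - N * ∑ c ∈ Box Z Y, F c) := by ring
    rw [e]
    refine (abs_sub _ _).trans ?_
    exact add_le_add h1 h2
  have h4 : (X : ℝ) * L ^ (C + 3) / L ^ (2 * W) ≤ 2 * N / L ^ (B + 1) := by
    have e : (X : ℝ) * L ^ (C + 3) / L ^ (2 * W) = X / L ^ U1 / L ^ (B + 3) := by
      have e1 : L ^ (2 * W) = L ^ U1 * L ^ (B + 3) * L ^ (C + 3) := by rw [hU1, hW]; ring
      rw [e1]
      field_simp
    rw [e]
    calc X / L ^ U1 / L ^ (B + 3) ≤ 2 * N / L ^ (B + 3) := div_le_div_of_nonneg_right hNge (hLp _).le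
      _ ≤ 2 * N / L ^ (B + 1) := div_le_div_of_nonneg_left (by positivity) (hLp _) (hLL (by omega))
  have h5 : b * (X * L ^ (C + 3) / L ^ (2 * W)) ≤ N * (b * (2 / L ^ (B + 1))) := by
    calc b * (X * L ^ (C + 3) / L ^ (2 * W)) ≤ b * (2 * N / L ^ (B + 1)) := by gcongr
      _ = N * (b * (2 / L ^ (B + 1))) := by ring
  have h6 : (N : ℝ) * |∑ c ∈ Box Z Y, F c| ≤ N * (b * (2 / L ^ (B + 1)) + 2 * (d / L ^ (B + 3) * b)) := by
    rw [mul_add]
    linarith
  have h7 := le_of_mul_le_mul_left h6 hN0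
  have h8 : ∑ c ∈ Box Z Y, F c = ∑ c ∈ Box Z Y, Φ c * di z (evm f M c k0) := by
    apply Finset.sum_congr rfl
    intro c hc
    have := hFt c hc 0 hN1
    have e0 : sv d 1 J' ((0 : ℕ) : ℤ) = 0 := by
      ext i
      unfold sv
      simp
    rw [e0, add_zero] at this
    rw [this]
    simp
  rw [h8] at h7
  refine h7.trans ?_
  rw [← hb]
  have h9 : (2 : ℝ) / L ^ (B + 1) ≤ 1 / 2 / L ^ B := by
    rw [pow_succ, div_le_div_iff₀ (by positivity) (hLp _)]
    have := hLp B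
    nlinarith
  have h10 : 2 * ((d : ℝ) / L ^ (B + 3)) ≤ 1 / 2 / L ^ B := by
    have h11 : (d : ℝ) / L ^ (B + 3) ≤ d / L ^ (B + 1) :=
      div_le_div_of_nonneg_left (Nat.cast_nonneg d) (hLp _) (hLL (by omega))
    have h12 : 2 * ((d : ℝ) / L ^ (B + 1)) ≤ 1 / 2 / L ^ B := by
      rw [pow_succ, mul_div_assoc', div_le_div_iff₀ (by positivity) (hLp _)]
      have := hLp B
      nlinarith
    linarith
  calc b * (2 / L ^ (B + 1)) + 2 * (d / L ^ (B + 3) * b) = b * (2 / L ^ (B + 1) + 2 * (d / L ^ (B + 3))) := by ring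
    _ ≤ b * (1 / 2 / L ^ B + 1 / 2 / L ^ B) := by gcongr
    _ = b / L ^ B := by ring

end Pool.Agent.Q236.CG
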