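import Pool.Agent.Q236.CG.Line

set_option autoImplicit false

/-!
# The primes minus their model on short progressions of integers
-/

namespace Pool.Agent.Q236.CG

open Finset Filter
open Pool.Agent.H373R2.T7 (pz Vz lamz mem_pz lamz_nonneg Vz_pos)
open Pool.Agent.Q236.RP (ev_log_ge ev_pow_log)

lemma line_nat (F : ℕ → ℝ) (D a N : ℕ) (hD : 1 ≤ D) (ha : 1 ≤ a) (hN : 1 ≤ N) :
    ∑ t ∈ range N, F (a + t * D) =
      ∑ n ∈ (Ioc (a - 1) (a - 1 + ((N - 1) * D + 1))).filter (fun n => n ≡ a [MOD D]), F n := by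
  apply Finset.sum_bij (fun t _ => a + t * D)
  · intro t ht
    rw [mem_range] at ht
    rw [mem_filter, mem_Ioc]
    have h1 : t * D ≤ (N - 1) * D := Nat.mul_le_mul_right D (by omega)
    refine ⟨⟨?_, by omega⟩, ?_⟩
    · have := Nat.zero_le (t * D)
      omega
    · unfold Nat.ModEq
      rw [Nat.add_mul_mod_self_right]
  · intro t ht s hs h
    exact Nat.eq_of_mul_eq_mul_right (by omega : 0 < D) (by omega)
  · intro n hn
    rw [mem_filter, mem_Ioc] at hn
    obtain ⟨⟨h1, h2⟩, h3⟩ := hn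
    obtain ⟨q, hq⟩ := (Nat.modEq_iff_dvd' (show a ≤ n by omega)).1 h3.symm
    refine ⟨q, ?_, ?_⟩
    · rw [mem_range]
      by_contra hcon
      push Not at hcon
      have h4 : N * D ≤ q * D := Nat.mul_le_mul_right D hcon
      have h5 : D * q = q * D := Nat.mul_comm _ _
      have h6 : (N - 1) * D + D = N * D := by
        rw [← Nat.succ_mul]
        congr 1
        omega
      have h7 : a + q * D = n := by omega
      omega
    · have h5 : D * q = q * D := Nat.mul_comm _ _
      omega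
  · intro t _
    rfl

/-- the primes minus the model, on the integers -/
noncomputable def di (z : ℕ) (v : ℤ) : ℝ := dz z v.toNat

/-- **Sums over short progressions of integers** -/
theorem cg_int (A C W : ℕ) (hW : C + 1 ≤ W) : ∀ᶠ X : ℕ in atTop, ∀ (z : ℕ) (D a : ℤ) (N : ℕ), (z : ℝ) ≤ Real.log X ^ A →
    D ≠ 0 → D.natAbs ≤ z → (∀ t : ℕ, t < N → (X : ℝ) / Real.log X ^ C ≤ ((a + t * D : ℤ) : ℝ) ∧
      ((a + t * D : ℤ) : ℝ) ≤ X * Real.log X ^ C) → (N : ℝ) * |(D : ℝ)| ≤ X / Real.log X ^ W →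
    |∑ t ∈ range N, di z (a + t * D)| ≤ X * Real.log X ^ (C + 2) / Real.log X ^ (2 * W) := by
  filter_upwards [cg_line A (C + 1) W hW, ev_log_ge 2, ev_pow_log (C + 1)] with X hX hL2 hP
  intro z D a N hz hD hDz hv hN
  obtain ⟨L, hL⟩ : ∃ L, L = Real.log (X : ℝ) := ⟨_, rfl⟩
  rw [← hL] at hX hL2 hP hz hv hN ⊢
  have hL0 : 0 < L := by linarith
  have hL1 : 1 ≤ L := by linarith
  have hLp : ∀ j : ℕ, 0 < L ^ j := fun j => by positivity
  have hXp : (0 : ℝ) < X := lt_of_lt_of_le (hLp _) hP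
  wlog hDpos : 0 < D generalizing D a with H
  · have hDneg : 0 < -D := by
      push Not at hDpos
      omega
    have h1 := H (-D) (a + ((N : ℤ) - 1) * D) (by omega) (by rwa [Int.natAbs_neg]) (by
        have e : |((-D : ℤ) : ℝ)| = |(D : ℝ)| := by push_cast; exact abs_neg _
        rw [e]
        exact hN) (by
      intro t ht
      have h2 := hv (N - 1 - t) (by omega)
      have e : a + ((N : ℤ) - 1) * D + t * -D = a + ((N - 1 - t : ℕ) : ℤ) * D := by
        have : ((N - 1 - t : ℕ) : ℤ) = (N : ℤ) - 1 - t := by omega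
        rw [this]
        ring
      rw [e]
      exact h2) hDneg
    have e : ∑ t ∈ range N, di z (a + ((N : ℤ) - 1) * D + t * -D) = ∑ t ∈ range N, di z (a + (t : ℤ) * D) := by
      rw [← Finset.sum_range_reflect]
      apply Finset.sum_congr rfl
      intro t ht
      rw [mem_range] at ht
      congr 1
      have : ((N - 1 - t : ℕ) : ℤ) = (N : ℤ) - 1 - t := by omega
      rw [this]
      ring
    rwa [e] at h1
  rcases Nat.eq_zero_or_pos N with hN0 | hN0
  · rw [hN0]
    simp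
    positivity
  obtain ⟨E, hE⟩ : ∃ E : ℕ, E = D.natAbs := ⟨_, rfl⟩
  have hEz : (E : ℤ) = D := by rw [hE]; omega
  have hE1 : 1 ≤ E := by omega
  rw [← hE] at hDz
  have hDr : |(D : ℝ)| = E := by
    rw [← hEz]
    simp
  rw [hDr] at hN
  have ha := (hv 0 hN0).1
  simp only [Nat.cast_zero, zero_mul, add_zero] at ha
  have hXC : 1 ≤ X / L ^ C / L := by
    rw [div_div, one_le_div (by positivity)]
    calc L ^ C * L = L ^ (C + 1) := by ring
      _ ≤ X := hP
  have hXC2 : 2 * (X / L ^ C / L) ≤ X / L ^ C := by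
    rw [mul_div_assoc', div_le_iff₀ hL0]
    have : 0 < X / L ^ C := by positivity
    nlinarith
  have ha1 : (1 : ℝ) ≤ a := by linarith
  have ha1z : 1 ≤ a := by exact_mod_cast ha1
  obtain ⟨b, hb⟩ : ∃ b : ℕ, b = a.toNat := ⟨_, rfl⟩
  have hbz : (b : ℤ) = a := by rw [hb]; exact Int.toNat_of_nonneg (by omega)
  have hb1 : 1 ≤ b := by omega
  have hsum : ∑ t ∈ range N, di z (a + (t : ℤ) * D) = ∑ t ∈ range N, dz z (b + t * E) := by
    apply Finset.sum_congr rfl
    intro t _
    unfold di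
    congr 1
    rw [← hbz, ← hEz]
    have : ((b : ℤ) + t * E) = ((b + t * E : ℕ) : ℤ) := by push_cast; ring
    rw [this, Int.toNat_natCast]
  rw [hsum, line_nat (dz z) E b N hE1 hb1 hN0]
  have hbr : (b : ℝ) = (a : ℝ) := by exact_mod_cast hbz
  have hE1r : (1 : ℝ) ≤ E := by exact_mod_cast hE1
  have hN1r : (1 : ℝ) ≤ N := by exact_mod_cast hN0
  have hcastN : ((N - 1 : ℕ) : ℝ) = N - 1 := by
    rw [Nat.cast_sub hN0]
    simp
  have hcastb : ((b - 1 : ℕ) : ℝ) = b - 1 := by
    rw [Nat.cast_sub hb1]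
    simp
  have hend := (hv (N - 1) (by omega)).2
  rw [← hbz, ← hEz] at hend
  push_cast at hend
  rw [hcastN] at hend
  have hz1 : 1 ≤ z := by omega
  have h := hX z E b (b - 1) ((N - 1) * E + 1) hz1 hz hE1 hDz (by
    rw [hcastb, hbr]
    have e : X / L ^ (C + 1) = X / L ^ C / L := by rw [pow_succ, div_div]
    rw [e]
    linarith) (by
    push_cast
    rw [hcastb, hcastN]
    have h1 : X * L ^ C ≤ X * L ^ (C + 1) := mul_le_mul_of_nonneg_left (pow_le_pow_right₀ hL1 (by omega)) hXp.le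
    linarith) (by
    push_cast
    rw [hcastN]
    refine le_trans ?_ hN
    nlinarith)
  exact h

end Pool.Agent.Q236.CG
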