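import Pool.Agent.Q236.RP.Short
import Pool.Agent.H373R2.T7.LamZ2

set_option autoImplicit false

/-!
# The primes minus their Cramér-Granville model in short intervals and progressions
-/

namespace Pool.Agent.Q236.CG

open Finset Filter H343E
open Pool.Agent.H442R2.EHI (lis)
open Pool.Agent.H373R2.T7 (pz Vz lamz lamz_ap mem_pz lamz_nonneg Vz_pos)
open Pool.Agent.Q236.RP (sw_pow lis_sub lis_sub_bounds piAP_sub log_window ev_loglog ev_log_ge ev_pow_log)

/-- the prime counting function in progressions -/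
theorem pi_err (A C U : ℕ) : ∀ᶠ X : ℕ in atTop, ∀ q a : ℕ, 1 ≤ q → (q : ℝ) ≤ Real.log X ^ A → a.Coprime q →
    ∀ z : ℕ, X / Real.log X ^ C ≤ z → (z : ℝ) ≤ X * Real.log X ^ C →
    |piAP z q a - lis z / (Nat.totient q : ℝ)| ≤ X / Real.log X ^ U := by
  obtain ⟨V, hV⟩ : ∃ V, V = U + C + 1 := ⟨_, rfl⟩
  obtain ⟨x0, hsw⟩ := sw_pow (A + 1) V
  obtain ⟨C1', hpnt⟩ := Pool.Agent.H442R2.EHI.pnt_err V
  obtain ⟨C1, hC1⟩ : ∃ C1 : ℝ, C1 = |C1'| := ⟨_, rfl⟩
  have hC10 : 0 ≤ C1 := by rw [hC1]; exact abs_nonneg _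
  filter_upwards [ev_loglog C (1 / 2) (by norm_num), ev_log_ge (2 ^ (A + 1)), ev_log_ge 2,
    ev_log_ge ((1 + C1) * 2 ^ V), ev_pow_log (C + 1), ev_log_ge (max (x0 : ℝ) 2)] with X hX1 hX3 hX4
    hX5 hX6 hX7 q a hq hqA hcop z hz1 hz2
  obtain ⟨L, hL⟩ : ∃ L, L = Real.log (X : ℝ) := ⟨_, rfl⟩
  rw [← hL] at hX1 hX3 hX4 hX5 hX6 hX7 hqA hz1 hz2 ⊢
  have hL0 : 0 < L := by linarith
  have hL1 : 1 ≤ L := by linarith
  have hX0 : (1 : ℝ) < X := by
    by_contra hcon
    push Not at hcon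
    have : Real.log (X : ℝ) ≤ 0 := Real.log_nonpos (Nat.cast_nonneg X) hcon
    rw [← hL] at this
    linarith
  have hXp : (0 : ℝ) < X := by linarith
  have hzL : L ≤ z := by
    refine le_trans ?_ hz1
    rw [le_div_iff₀ (by positivity)]
    calc L * L ^ C = L ^ (C + 1) := by ring
      _ ≤ X := hX6
  have hz4 : x0 ≤ z := by
    have h1 : (x0 : ℝ) ≤ z := (le_max_left _ _).trans (hX7.trans hzL)
    exact_mod_cast h1
  have hz5 : 2 ≤ z := by
    have h1 : (2 : ℝ) ≤ z := (le_max_right _ _).trans (hX7.trans hzL)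
    exact_mod_cast h1
  have hlz : L / 2 ≤ Real.log z := by
    rw [hL] at hz1 hz2 hX1
    have := (log_window X C C (1 / 2) hX0 (by rw [← hL]; exact hL1) hX1 hX1 z hz1 hz2).1
    rw [← hL] at this
    linarith
  have hlz0 : 0 < Real.log z := by linarith
  have hφ0 : (0 : ℝ) < (Nat.totient q : ℝ) := by exact_mod_cast Nat.totient_pos.2 hq
  have hφ1 : (1 : ℝ) ≤ (Nat.totient q : ℝ) := by exact_mod_cast Nat.totient_pos.2 hq
  have h1 := hsw z hz4 q a hq (by
    refine hqA.trans ?_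
    calc L ^ A = L ^ A * 1 := (mul_one _).symm
      _ ≤ L ^ A * (L / 2 ^ (A + 1)) := by
        apply mul_le_mul_of_nonneg_left _ (by positivity)
        rw [le_div_iff₀ (by positivity), one_mul]
        exact hX3
      _ = (L / 2) ^ (A + 1) := by rw [div_pow]; ring
      _ ≤ Real.log z ^ (A + 1) := pow_le_pow_left₀ (by positivity) hlz _) hcop
  have h2 : |pi1 z - lis z| ≤ C1 * (z / Real.log z ^ V) := by
    refine (show |pi1 z - lis z| ≤ C1' * z / Real.log z ^ V from hpnt z hz5).trans ?_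
    rw [mul_div_assoc, hC1]
    exact mul_le_mul_of_nonneg_right (le_abs_self _) (by positivity)
  have h3 : (z : ℝ) / Real.log z ^ V ≤ 2 ^ V / L * (X / L ^ U) := by
    calc (z : ℝ) / Real.log z ^ V ≤ (X * L ^ C) / (L / 2) ^ V := by
          apply div_le_div₀ (by positivity) hz2 (by positivity)
          exact pow_le_pow_left₀ (by positivity) hlz _
      _ = _ := by
          have e : L ^ V = L ^ U * L ^ C * L := by rw [hV]; ring
          rw [div_pow, e]
          field_simp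
  have h4 : |pi1 z / (Nat.totient q : ℝ) - lis z / (Nat.totient q : ℝ)| ≤ C1 * (z / Real.log z ^ V) := by
    rw [← sub_div, abs_div, abs_of_pos hφ0]
    exact (div_le_self (abs_nonneg _) hφ1).trans h2
  calc |piAP z q a - lis z / (Nat.totient q : ℝ)| ≤
      |piAP z q a - pi1 z / (Nat.totient q : ℝ)| + |pi1 z / (Nat.totient q : ℝ) - lis z / (Nat.totient q : ℝ)| :=
        abs_sub_le _ _ _
    _ ≤ z / Real.log z ^ V + C1 * (z / Real.log z ^ V) := add_le_add h1 h4
    _ = (1 + C1) * (z / Real.log z ^ V) := by ring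
    _ ≤ (1 + C1) * (2 ^ V / L * (X / L ^ U)) := mul_le_mul_of_nonneg_left h3 (by linarith)
    _ = ((1 + C1) * 2 ^ V / L) * (X / L ^ U) := by ring
    _ ≤ 1 * (X / L ^ U) := by
        apply mul_le_mul_of_nonneg_right _ (by positivity)
        rw [div_le_one hL0]
        exact hX5
    _ = _ := one_mul _

/-- the primes minus the model -/
noncomputable def dz (z n : ℕ) : ℝ := (if n.Prime then 1 else 0) - lamz z n / Real.log n

lemma log_shift (u h : ℝ) (hu : 1 < u) (hh : 0 ≤ h) (hl : 1 ≤ Real.log u) :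
    |1 / Real.log (u + h) - 1 / Real.log u| ≤ h / u := by
  have hu0 : 0 < u := by linarith
  have h1 : Real.log (u + h) = Real.log u + Real.log (1 + h / u) := by
    rw [← Real.log_mul hu0.ne' (by positivity)]
    congr 1
    field_simp
  have h2 : 0 ≤ Real.log (1 + h / u) := Real.log_nonneg (by
    have : 0 ≤ h / u := by positivity
    linarith)
  have h3 : Real.log (1 + h / u) ≤ h / u := by
    have := Real.log_le_sub_one_of_pos (show 0 < 1 + h / u by positivity)
    linarith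
  have hlp : 0 < Real.log u := by linarith
  have hlp2 : 0 < Real.log (u + h) := by linarith
  rw [div_sub_div _ _ hlp2.ne' hlp.ne', abs_div, abs_of_pos (mul_pos hlp2 hlp), one_mul, mul_one, h1, div_le_iff₀ (by
    rw [← h1]; positivity)]
  have e : Real.log u - (Real.log u + Real.log (1 + h / u)) = -Real.log (1 + h / u) := by ring
  rw [e, abs_neg, abs_of_nonneg h2]
  have h4 : 1 ≤ (Real.log u + Real.log (1 + h / u)) * Real.log u := by nlinarith
  calc Real.log (1 + h / u) ≤ h / u := h3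
    _ = h / u * 1 := (mul_one _).symm
    _ ≤ _ := mul_le_mul_of_nonneg_left h4 (by positivity)

/-- **Sums of the primes minus the model** -/
theorem cg_line (A C W : ℕ) (hW : C ≤ W) : ∀ᶠ X : ℕ in atTop, ∀ z q c u h : ℕ, 1 ≤ z → (z : ℝ) ≤ Real.log X ^ A →
    1 ≤ q → q ≤ z → X / Real.log X ^ C ≤ u → (u : ℝ) + h ≤ X * Real.log X ^ C → (h : ℝ) ≤ X / Real.log X ^ W →
    |∑ n ∈ (Ioc u (u + h)).filter (fun n => n ≡ c [MOD q]), dz z n| ≤ X * Real.log X ^ (C + 1) / Real.log X ^ (2 * W) := by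
  obtain ⟨U, hU⟩ : ∃ U, U = 2 * W + C + 1 := ⟨_, rfl⟩
  obtain ⟨N0, hlam⟩ := lamz_ap A U
  filter_upwards [pi_err A C U, ev_loglog C (1 / 2) (by norm_num), ev_log_ge 12, ev_pow_log (A + C + 1),
    (tendsto_natCast_atTop_atTop (R := ℝ)).eventually_ge_atTop ((N0 : ℝ) + 1)] with X hpi hX1 hX4 hX6 hXN z q c u h hz
    hzA hq hqz hu huh hh
  obtain ⟨L, hL⟩ : ∃ L, L = Real.log (X : ℝ) := ⟨_, rfl⟩
  rw [← hL] at hpi hX1 hX4 hX6 hzA hu huh hh ⊢
  have hL0 : 0 < L := by linarith
  have hL1 : 1 ≤ L := by linarith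
  have hLp : ∀ j : ℕ, 0 < L ^ j := fun j => by positivity
  have hLp1 : ∀ j : ℕ, 1 ≤ L ^ j := fun j => one_le_pow₀ hL1
  have hX0 : (1 : ℝ) < X := by
    by_contra hcon
    push Not at hcon
    have : Real.log (X : ℝ) ≤ 0 := Real.log_nonpos (Nat.cast_nonneg X) hcon
    rw [← hL] at this
    linarith
  have hXp : (0 : ℝ) < X := by linarith
  have hzu : (z : ℝ) < u := by
    refine lt_of_lt_of_le ?_ hu
    rw [lt_div_iff₀ (hLp _)]
    calc (z : ℝ) * L ^ C ≤ L ^ A * L ^ C := mul_le_mul_of_nonneg_right hzA (hLp _).le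
      _ = L ^ (A + C) := by ring
      _ < L ^ (A + C + 1) := pow_lt_pow_right₀ (by linarith) (by omega)
      _ ≤ X := hX6
  have hzr : (1 : ℝ) ≤ z := by exact_mod_cast hz
  have hu1 : (1 : ℝ) < u := by linarith
  have hunat : 1 < u := by exact_mod_cast hu1
  have hu0 : (0 : ℝ) < u := by linarith
  have hh0 : (0 : ℝ) ≤ h := Nat.cast_nonneg h
  have hlu : L / 2 ≤ Real.log u := by
    have h1 : (u : ℝ) ≤ X * L ^ C := by linarith
    rw [hL] at hu h1 hX1
    have := (log_window X C C (1 / 2) hX0 (by rw [← hL]; exact hL1) hX1 hX1 u hu h1).1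
    rw [← hL] at this
    linarith
  have hlu1 : 1 ≤ Real.log u := by linarith
  -- the numbers of the interval
  have hlog : ∀ n ∈ Ioc u (u + h), |1 / Real.log n - 1 / Real.log u| ≤ L ^ C / L ^ W := by
    intro n hn
    rw [mem_Ioc] at hn
    have h1 : (u : ℝ) ≤ n := by exact_mod_cast hn.1.le
    have h2 : (n : ℝ) ≤ u + h := by exact_mod_cast hn.2
    have h3 := log_shift u (n - u) hu1 (by linarith) hlu1
    have e : (u : ℝ) + (n - u) = n := by ring
    rw [e] at h3
    refine h3.trans ?_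
    have h4 : (n : ℝ) - u ≤ X / L ^ W := by linarith
    calc ((n : ℝ) - u) / u ≤ (X / L ^ W) / (X / L ^ C) := div_le_div₀ (by positivity) h4 (by positivity) hu
      _ = L ^ C / L ^ W := by field_simp
  have hφ0 : (0 : ℝ) < (Nat.totient q : ℝ) := by exact_mod_cast Nat.totient_pos.2 hq
  have hφ1 : (1 : ℝ) ≤ (Nat.totient q : ℝ) := by exact_mod_cast Nat.totient_pos.2 hq
  have hqA : (q : ℝ) ≤ L ^ A := le_trans (by exact_mod_cast hqz) hzA
  have hnotp : ∀ n ∈ (Ioc u (u + h)).filter (fun n => n ≡ c [MOD q]), ¬c.Coprime q → dz z n = 0 := by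
    intro n hn hcop
    rw [mem_filter, mem_Ioc] at hn
    obtain ⟨p, hp, hpc, hpq⟩ := Nat.Prime.not_coprime_iff_dvd.1 hcop
    have hpn : p ∣ n := (hn.2.dvd_iff hpq).2 hpc
    have hpz : p ≤ z := (Nat.le_of_dvd (by omega) hpq).trans hqz
    have h1 : ¬n.Prime := by
      intro hnp
      have h2 := (Nat.prime_dvd_prime_iff_eq hp hnp).1 hpn
      have h3 : z < u := by exact_mod_cast hzu
      omega
    unfold dz lamz
    rw [if_neg h1, if_neg]
    · simp
    · intro h2
      exact h2 p (mem_pz.2 ⟨hpz, hp⟩) hpn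
  by_cases hcop : c.Coprime q
  swap
  · rw [Finset.sum_eq_zero (fun n hn => hnotp n hn hcop), abs_zero]
    positivity
  -- the sum of the model
  obtain ⟨N, hN⟩ : ∃ N, N = ⌊(X : ℝ) * L ^ C⌋₊ := ⟨_, rfl⟩
  have hNle : (N : ℝ) ≤ X * L ^ C := by rw [hN]; exact Nat.floor_le (by positivity)
  have hNX : X ≤ N := by
    rw [hN]
    apply Nat.le_floor
    have := hLp1 C
    nlinarith
  have hNN0 : N0 ≤ N := by
    have h1 : (N0 : ℝ) ≤ X := by linarith
    have h2 : N0 ≤ X := by exact_mod_cast h1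
    omega
  have hLN : L ≤ Real.log N := by
    rw [hL]
    apply Real.log_le_log hXp
    exact_mod_cast hNX
  have huN : u + h ≤ N := by
    rw [hN]
    apply Nat.le_floor
    push_cast
    exact huh
  have hzN : (z : ℝ) ≤ Real.log N ^ A := hzA.trans (pow_le_pow_left₀ hL0.le hLN A)
  have hEN : (N : ℝ) / Real.log N ^ U ≤ X * L ^ C / L ^ U :=
    div_le_div₀ (by positivity) hNle (hLp _) (pow_le_pow_left₀ hL0.le hLN U)
  have hm1 := hlam N hNN0 z hz hzN q hq hqz c (u + h) huN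
  have hm2 := hlam N hNN0 z hz hzN q hq hqz c u (by omega)
  rw [if_pos hcop] at hm1 hm2
  have hsplit : ∑ n ∈ (Ioc u (u + h)).filter (fun n => n ≡ c [MOD q]), lamz z n =
      ∑ n ∈ (Icc 1 (u + h)).filter (fun n => n ≡ c [MOD q]), lamz z n -
      ∑ n ∈ (Icc 1 u).filter (fun n => n ≡ c [MOD q]), lamz z n := by
    have e1 : (Icc 1 (u + h)).filter (fun n => n ≡ c [MOD q]) = (Icc 1 u).filter (fun n => n ≡ c [MOD q]) ∪
        (Ioc u (u + h)).filter (fun n => n ≡ c [MOD q]) := by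
      rw [← filter_union]
      congr 1
      ext n
      simp only [mem_Icc, mem_union, mem_Ioc]
      omega
    rw [e1, sum_union]
    · ring
    · rw [disjoint_left]
      intro n hn1 hn2
      rw [mem_filter, mem_Icc] at hn1
      rw [mem_filter, mem_Ioc] at hn2
      omega
  obtain ⟨M, hM⟩ : ∃ M, M = ∑ n ∈ (Ioc u (u + h)).filter (fun n => n ≡ c [MOD q]), lamz z n := ⟨_, rfl⟩
  have hM1 : |M - h / (Nat.totient q : ℝ)| ≤ 2 * (X * L ^ C / L ^ U) := by
    rw [hM, hsplit]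
    have e : ((u + h : ℕ) : ℝ) / (Nat.totient q : ℝ) = u / (Nat.totient q : ℝ) + h / (Nat.totient q : ℝ) := by
      push_cast
      ring
    rw [e] at hm1
    have h1 := abs_le.1 (hm1.trans hEN)
    have h2 := abs_le.1 (hm2.trans hEN)
    rw [abs_le]
    constructor <;> linarith [h1.1, h1.2, h2.1, h2.2]
  have hM0 : 0 ≤ M := by rw [hM]; exact Finset.sum_nonneg fun n _ => lamz_nonneg z n
  have hhX : (h : ℝ) / (Nat.totient q : ℝ) ≤ X / L ^ W := (div_le_self hh0 hφ1).trans hh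
  have hUW : X * L ^ C / L ^ U ≤ X / L ^ (2 * W) / L := by
    have e : L ^ U = L ^ C * L ^ (2 * W) * L := by rw [hU]; ring
    rw [e]
    apply le_of_eq
    field_simp
  have hM2 : M ≤ 3 * (X / L ^ W) := by
    have h1 := (abs_le.1 hM1).2
    have h2 : X / L ^ (2 * W) / L ≤ X / L ^ W := by
      rw [div_div]
      apply div_le_div_of_nonneg_left hXp.le (hLp _)
      calc L ^ W ≤ L ^ (2 * W) := pow_le_pow_right₀ hL1 (by omega)
        _ ≤ L ^ (2 * W) * L := le_mul_of_one_le_right (hLp _).le hL1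
    linarith
  have hs1 : |∑ n ∈ (Ioc u (u + h)).filter (fun n => n ≡ c [MOD q]), lamz z n / Real.log n - M / Real.log u| ≤
      3 * (X / L ^ W) * (L ^ C / L ^ W) := by
    rw [hM, Finset.sum_div, ← Finset.sum_sub_distrib]
    refine (Finset.abs_sum_le_sum_abs _ _).trans ?_
    calc ∑ n ∈ (Ioc u (u + h)).filter (fun n => n ≡ c [MOD q]), |lamz z n / Real.log n - lamz z n / Real.log u| ≤
        ∑ n ∈ (Ioc u (u + h)).filter (fun n => n ≡ c [MOD q]), lamz z n * (L ^ C / L ^ W) := by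
          apply Finset.sum_le_sum
          intro n hn
          have h1 := hlog n (mem_filter.1 hn).1
          have e : lamz z n / Real.log n - lamz z n / Real.log u = lamz z n * (1 / Real.log n - 1 / Real.log u) := by ring
          rw [e, abs_mul, abs_of_nonneg (lamz_nonneg z n)]
          exact mul_le_mul_of_nonneg_left h1 (lamz_nonneg z n)
      _ = M * (L ^ C / L ^ W) := by rw [← Finset.sum_mul, hM]
      _ ≤ _ := mul_le_mul_of_nonneg_right hM2 (by positivity)
  -- the primes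
  have hp1 : ∑ n ∈ (Ioc u (u + h)).filter (fun n => n ≡ c [MOD q]), (if n.Prime then (1 : ℝ) else 0) =
      piAP (u + h) q c - piAP u q c := by
    rw [← piAP_sub, Finset.sum_boole, filter_filter]
    congr 3
    ext n
    tauto
  have hp2 := hpi q c hq hqA hcop (u + h) (by push_cast; linarith) (by push_cast; exact huh)
  have hp3 := hpi q c hq hqA hcop u hu (by linarith)
  have hp4 : |lis (u + h) - lis u - h / Real.log u| ≤ h * (L ^ C / L ^ W) := by
    rw [lis_sub u h (by omega)]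
    have e : (h : ℝ) / Real.log u = ∑ _n ∈ Ioc u (u + h), 1 / Real.log u := by
      rw [Finset.sum_const, nsmul_eq_mul, Nat.card_Ioc, Nat.add_sub_cancel_left]
      ring
    rw [e, ← Finset.sum_sub_distrib]
    refine (Finset.abs_sum_le_sum_abs _ _).trans ?_
    refine (Finset.sum_le_sum hlog).trans (le_of_eq ?_)
    rw [Finset.sum_const, nsmul_eq_mul, Nat.card_Ioc, Nat.add_sub_cancel_left]
  have hp5 : |(lis (u + h) - lis u) / (Nat.totient q : ℝ) - h / Real.log u / (Nat.totient q : ℝ)| ≤ (X / L ^ W) * (L ^ C / L ^ W) := by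
    rw [← sub_div, abs_div, abs_of_pos hφ0]
    refine (div_le_self (abs_nonneg _) hφ1).trans (hp4.trans ?_)
    exact mul_le_mul_of_nonneg_right hh (by positivity)
  have hUW2 : X / L ^ U ≤ X / L ^ (2 * W) := by
    apply div_le_div_of_nonneg_left hXp.le (hLp _)
    exact pow_le_pow_right₀ hL1 (by omega)
  have hM3 : |M / Real.log u - h / (Nat.totient q : ℝ) / Real.log u| ≤ 2 * (X / L ^ (2 * W)) := by
    have hlup : 0 < Real.log u := by linarith
    rw [← sub_div, abs_div, abs_of_pos hlup]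
    refine (div_le_self (abs_nonneg _) hlu1).trans (hM1.trans ?_)
    have h1 : X / L ^ (2 * W) / L ≤ X / L ^ (2 * W) := div_le_self (by positivity) hL1
    linarith
  have hfin : ∑ n ∈ (Ioc u (u + h)).filter (fun n => n ≡ c [MOD q]), dz z n =
      (piAP (u + h) q c - piAP u q c) - ∑ n ∈ (Ioc u (u + h)).filter (fun n => n ≡ c [MOD q]), lamz z n / Real.log n := by
    unfold dz
    rw [Finset.sum_sub_distrib, hp1]
  rw [hfin]
  have e1 : (X / L ^ W) * (L ^ C / L ^ W) = X / L ^ (2 * W) * L ^ C := by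
    have : L ^ (2 * W) = L ^ W * L ^ W := by ring
    rw [this]
    field_simp
  have e2 : 3 * (X / L ^ W) * (L ^ C / L ^ W) = 3 * (X / L ^ (2 * W) * L ^ C) := by
    rw [mul_assoc, e1]
  rw [e1] at hp5
  rw [e2] at hs1
  obtain ⟨Y, hY⟩ : ∃ Y : ℝ, Y = X / L ^ (2 * W) := ⟨_, rfl⟩
  have hY0 : 0 ≤ Y := by rw [hY]; positivity
  rw [← hY] at hp5 hs1 hM3 hUW2
  have e3 : (X : ℝ) * L ^ (C + 1) / L ^ (2 * W) = Y * L ^ C * L := by rw [hY]; ring
  rw [e3]
  have h1 := abs_le.1 hs1
  have h2 := abs_le.1 (hp2.trans hUW2)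
  have h3 := abs_le.1 (hp3.trans hUW2)
  have h4 := abs_le.1 hp5
  have h5 := abs_le.1 hM3
  have e4 : h / (Nat.totient q : ℝ) / Real.log u = h / Real.log u / (Nat.totient q : ℝ) := by
    rw [div_right_comm]
  rw [e4] at h5
  have e5 : (lis (u + h) - lis u) / (Nat.totient q : ℝ) = lis (u + h) / (Nat.totient q : ℝ) - lis u / (Nat.totient q : ℝ) := sub_div _ _ _
  rw [e5] at h4
  have h6 : Y ≤ Y * L ^ C := le_mul_of_one_le_right hY0 (hLp1 C)
  have h7 : 8 * (Y * L ^ C) ≤ Y * L ^ C * L := by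
    have : 0 ≤ Y * L ^ C := by positivity
    nlinarith
  rw [abs_le]
  constructor <;> linarith [h1.1, h1.2, h2.1, h2.2, h3.1, h3.2, h4.1, h4.2, h5.1, h5.2]

end Pool.Agent.Q236.CG
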